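import Mathlib

set_option autoImplicit false

namespace Pool.Agent.Helper42.UnionL1

open Finset

section Avg
variable {G G' Y : Type*} [AddCommGroup G] [AddCommGroup G'] [NormedAddCommGroup Y]
  [NormedSpace ℝ Y]

/-- one-directional average -/
noncomputable def avg (n : ℕ) (v : G) (f : G → Y) : G → Y :=
  fun g => (n : ℝ)⁻¹ • ∑ t ∈ range n, f (g + t • v)

/-- iterated directional average along a list of directions -/
noncomputable def avgL (n : ℕ) : List G → (G → Y) → (G → Y)
  | [], f => f
  | v :: L, f => avg n v (avgL n L f)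

theorem avg_translate (n : ℕ) (v w : G) (f : G → Y) (g : G) :
    avg n v (fun x => f (x + w)) g = avg n v f (g + w) := by
  unfold avg
  congr 1
  apply Finset.sum_congr rfl
  intro t _
  rw [add_right_comm]

theorem avgL_translate (n : ℕ) (L : List G) (w : G) (f : G → Y) (g : G) :
    avgL n L (fun x => f (x + w)) g = avgL n L f (g + w) := by
  induction L generalizing g with
  | nil => rfl
  | cons v L ih =>
    simp only [avgL]
    rw [← avg_translate]
    congr 1
    funext x
    exact ih x

theorem avg_sub (n : ℕ) (v : G) (f f' : G → Y) (g : G) :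
    avg n v (fun x => f x - f' x) g = avg n v f g - avg n v f' g := by
  unfold avg
  rw [Finset.sum_sub_distrib, smul_sub]

theorem avgL_sub (n : ℕ) (L : List G) (f f' : G → Y) (g : G) :
    avgL n L (fun x => f x - f' x) g = avgL n L f g - avgL n L f' g := by
  induction L generalizing g with
  | nil => rfl
  | cons v L ih =>
    simp only [avgL]
    rw [← avg_sub]
    congr 1
    funext x
    exact ih x

theorem avg_add (n : ℕ) (v : G) (f f' : G → Y) (g : G) :
    avg n v (fun x => f x + f' x) g = avg n v f g + avg n v f' g := by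
  unfold avg
  rw [Finset.sum_add_distrib, smul_add]

theorem avgL_add (n : ℕ) (L : List G) (f f' : G → Y) (g : G) :
    avgL n L (fun x => f x + f' x) g = avgL n L f g + avgL n L f' g := by
  induction L generalizing g with
  | nil => rfl
  | cons v L ih =>
    simp only [avgL]
    rw [← avg_add]
    congr 1
    funext x
    exact ih x

theorem norm_avg_le (n : ℕ) (v : G) (f : G → Y) (C : ℝ) (hC : 0 ≤ C)
    (h : ∀ x, ‖f x‖ ≤ C) (g : G) : ‖avg n v f g‖ ≤ C := by
  unfold avg
  rw [norm_smul, norm_inv, Real.norm_natCast]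
  rcases Nat.eq_zero_or_pos n with hn | hn
  · subst hn; simpa using hC
  · have hn' : (0 : ℝ) < n := by exact_mod_cast hn
    rw [inv_mul_le_iff₀ hn']
    calc ‖∑ t ∈ range n, f (g + t • v)‖ ≤ ∑ t ∈ range n, ‖f (g + t • v)‖ := norm_sum_le _ _
      _ ≤ ∑ t ∈ range n, C := Finset.sum_le_sum (fun t _ => h _)
      _ = n * C := by simp

theorem norm_avgL_le (n : ℕ) (L : List G) (f : G → Y) (C : ℝ) (hC : 0 ≤ C)
    (h : ∀ x, ‖f x‖ ≤ C) (g : G) : ‖avgL n L f g‖ ≤ C := by
  induction L generalizing g with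
  | nil => exact h g
  | cons v L ih =>
    simp only [avgL]
    exact norm_avg_le n v _ C hC ih g

theorem avg_shift (n : ℕ) (v : G) (f : G → Y) (g : G) :
    avg n v f (g + v) - avg n v f g = (n : ℝ)⁻¹ • (f (g + n • v) - f g) := by
  unfold avg
  rw [← smul_sub]
  congr 1
  have h1 : ∑ t ∈ range n, f (g + v + t • v) = ∑ t ∈ range n, f (g + (t + 1) • v) := by
    apply Finset.sum_congr rfl
    intro t _
    congr 1
    rw [add_smul, one_smul]; abel
  rw [h1]
  have h2 := Finset.sum_range_succ' (fun t => f (g + t • v)) n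
  have h3 := Finset.sum_range_succ (fun t => f (g + t • v)) n
  rw [h2] at h3
  simp only [zero_smul, add_zero] at h3
  have : ∑ t ∈ range n, f (g + (t + 1) • v) = ∑ t ∈ range n, f (g + t • v) + f (g + n • v) - f g := by
    rw [← h3]; abel
  rw [this]; abel

theorem norm_avgL_shift_le (n : ℕ) (L : List G) (f : G → Y) (C : ℝ) (hC : 0 ≤ C)
    (h : ∀ x, ‖f x‖ ≤ C) (v : G) (hv : v ∈ L) (g : G) :
    ‖avgL n L f (g + v) - avgL n L f g‖ ≤ 2 * C / n := by
  induction L generalizing g with
  | nil => simp at hv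
  | cons w L ih =>
    simp only [avgL]
    rcases List.mem_cons.1 hv with rfl | hv'
    · rw [avg_shift, norm_smul, norm_inv, Real.norm_natCast]
      have h1 : ‖avgL n L f (g + n • v) - avgL n L f g‖ ≤ 2 * C := by
        calc _ ≤ ‖avgL n L f (g + n • v)‖ + ‖avgL n L f g‖ := norm_sub_le _ _
          _ ≤ C + C := add_le_add (norm_avgL_le n L f C hC h _) (norm_avgL_le n L f C hC h _)
          _ = 2 * C := by ring
      rw [div_eq_inv_mul]
      exact mul_le_mul_of_nonneg_left h1 (by positivity)
    · rw [← avg_translate, ← avg_sub]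
      apply norm_avg_le
      · positivity
      · intro x
        exact ih hv' x

theorem norm_avg_sub_self_le (n : ℕ) (w : G) (f : G → Y) (C : ℝ) (hC : 0 ≤ C)
    (hn : 0 < n) (h : ∀ x, ‖f (x + w) - f x‖ ≤ C) (g : G) :
    ‖avg n w f g - f g‖ ≤ n * C := by
  have hn' : (0 : ℝ) < n := by exact_mod_cast hn
  have hstep : ∀ t : ℕ, ‖f (g + t • w) - f g‖ ≤ t * C := by
    intro t
    induction t with
    | zero => simp
    | succ t ih =>
      have : f (g + (t + 1) • w) - f g = (f (g + t • w + w) - f (g + t • w)) + (f (g + t • w) - f g) := by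
        rw [add_smul, one_smul, ← add_assoc]; abel
      rw [this]
      calc _ ≤ ‖f (g + t • w + w) - f (g + t • w)‖ + ‖f (g + t • w) - f g‖ := norm_add_le _ _
        _ ≤ C + t * C := add_le_add (h _) ih
        _ = ((t + 1 : ℕ) : ℝ) * C := by push_cast; ring
  have h1 : avg n w f g - f g = (n : ℝ)⁻¹ • ∑ t ∈ range n, (f (g + t • w) - f g) := by
    unfold avg
    rw [Finset.sum_sub_distrib, smul_sub]
    congr 1
    rw [Finset.sum_const, card_range, ← Nat.cast_smul_eq_nsmul ℝ, smul_smul, inv_mul_cancel₀ hn'.ne',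
      one_smul]
  rw [h1, norm_smul, norm_inv, Real.norm_natCast, inv_mul_le_iff₀ hn']
  calc ‖∑ t ∈ range n, (f (g + t • w) - f g)‖ ≤ ∑ t ∈ range n, ‖f (g + t • w) - f g‖ := norm_sum_le _ _
    _ ≤ ∑ t ∈ range n, (n : ℝ) * C := by
        apply Finset.sum_le_sum
        intro t ht
        refine (hstep t).trans ?_
        apply mul_le_mul_of_nonneg_right _ hC
        exact_mod_cast (Finset.mem_range.1 ht).le
    _ = n * (n * C) := by simp

theorem norm_avgL_diff_le (n : ℕ) (L : List G) (f : G → Y) (C : ℝ) (hC : 0 ≤ C) (w : G)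
    (h : ∀ x, ‖f (x + w) - f x‖ ≤ C) (g : G) :
    ‖avgL n L f (g + w) - avgL n L f g‖ ≤ C := by
  rw [← avgL_translate, ← avgL_sub]
  exact norm_avgL_le n L _ C hC h g

theorem norm_avgL_sub_self_le (n : ℕ) (L : List G) (f : G → Y) (C : ℝ) (hC : 0 ≤ C)
    (hn : 0 < n) (h : ∀ v ∈ L, ∀ x, ‖f (x + v) - f x‖ ≤ C) (g : G) :
    ‖avgL n L f g - f g‖ ≤ n * L.length * C := by
  induction L generalizing g with
  | nil => simp [avgL]
  | cons w L ih =>
    simp only [avgL, List.length_cons]
    have h1 := norm_avg_sub_self_le n w (avgL n L f) C hC hn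
      (fun x => norm_avgL_diff_le n L f C hC w (h w (by simp)) x) g
    have h2 := ih (fun v hv => h v (by simp [hv])) g
    calc ‖avg n w (avgL n L f) g - f g‖
        = ‖(avg n w (avgL n L f) g - avgL n L f g) + (avgL n L f g - f g)‖ := by congr 1; abel
      _ ≤ _ := norm_add_le _ _
      _ ≤ n * C + n * L.length * C := add_le_add h1 h2
      _ = n * ((L.length + 1 : ℕ) : ℝ) * C := by push_cast; ring

theorem avgL_map (n : ℕ) (φ : G →+ G') (L : List G) (f : G' → Y) (g : G) :
    avgL n L (fun x => f (φ x)) g = avgL n (L.map φ) f (φ g) := by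
  induction L generalizing g with
  | nil => rfl
  | cons v L ih =>
    simp only [avgL, List.map_cons]
    unfold avg
    congr 1
    apply Finset.sum_congr rfl
    intro t _
    rw [ih]
    congr 1
    simp

theorem avg_comm (n : ℕ) (v w : G) (f : G → Y) (g : G) :
    avg n v (avg n w f) g = avg n w (avg n v f) g := by
  unfold avg
  simp only [← Finset.smul_sum]
  rw [Finset.sum_comm]
  congr 2
  apply Finset.sum_congr rfl
  intro t _
  apply Finset.sum_congr rfl
  intro s _
  congr 1
  abel

theorem avgL_avg_comm (n : ℕ) (L : List G) (v : G) (f : G → Y) (g : G) :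
    avgL n L (avg n v f) g = avg n v (avgL n L f) g := by
  induction L generalizing g with
  | nil => rfl
  | cons w L ih =>
    simp only [avgL]
    rw [← avg_comm]
    congr 1
    funext x
    exact ih x

theorem avgL_zero (n : ℕ) (L : List G) (g : G) : avgL n L (fun _ : G => (0 : Y)) g = 0 :=
  norm_le_zero_iff.1 (norm_avgL_le n L (fun _ : G => (0 : Y)) 0 le_rfl (by simp) g)

theorem avgL_sum {κ : Type*} (n : ℕ) (L : List G) (s : Finset κ) (f : κ → G → Y) (g : G) :
    avgL n L (fun x => ∑ i ∈ s, f i x) g = ∑ i ∈ s, avgL n L (f i) g := by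
  classical
  induction s using Finset.induction_on with
  | empty => simpa using avgL_zero n L g
  | insert a s ha ih =>
    rw [Finset.sum_insert ha, ← ih, ← avgL_add]
    congr 1
    funext x
    rw [Finset.sum_insert ha]

end Avg

section Side
variable {G Y I P : Type*} [AddCommGroup G] [NormedAddCommGroup Y]

theorem base_shift [DecidableEq I] (δ : I → G) (f : G → Y) (η : ℝ)
    (h2 : ∀ x k k', ‖(f (x + δ k' + δ k) - f (x + δ k')) - (f (x + δ k) - f x)‖ ≤ η)
    (u : I → ℤ) (hu : ∀ k, u k = 1 ∨ u k = -1) (s : Finset I) (x : G) (k : I) :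
    ‖(f (x + ∑ j ∈ s, u j • δ j + δ k) - f (x + ∑ j ∈ s, u j • δ j)) - (f (x + δ k) - f x)‖
      ≤ s.card * η := by
  induction s using Finset.induction_on with
  | empty => simp
  | insert j s hj ih =>
    rw [Finset.sum_insert hj, Finset.card_insert_of_notMem hj]
    set S := ∑ j ∈ s, u j • δ j with hS
    have key : ‖(f (x + (u j • δ j + S) + δ k) - f (x + (u j • δ j + S))) -
        (f (x + S + δ k) - f (x + S))‖ ≤ η := by
      rcases hu j with h | h
      · rw [h, one_smul]
        have := h2 (x + S) k j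
        have e1 : x + (δ j + S) = x + S + δ j := by abel
        rw [e1]; exact this
      · rw [h]
        have := h2 (x + S - δ j) k j
        have e1 : x + ((-1 : ℤ) • δ j + S) = x + S - δ j := by
          rw [neg_smul, one_smul]; abel
        rw [e1]
        rw [sub_add_cancel] at this
        rw [norm_sub_rev]
        exact this
    calc _ = ‖((f (x + (u j • δ j + S) + δ k) - f (x + (u j • δ j + S))) -
        (f (x + S + δ k) - f (x + S))) + ((f (x + S + δ k) - f (x + S)) - (f (x + δ k) - f x))‖ := by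
          congr 1; abel
      _ ≤ _ := norm_add_le _ _
      _ ≤ η + s.card * η := add_le_add key ih
      _ = ((s.card + 1 : ℕ) : ℝ) * η := by push_cast; ring

theorem path_sum [NormedSpace ℝ Y] [DecidableEq I] (δ : I → G) (f : G → Y) (η : ℝ) (hη : 0 ≤ η)
    (h2 : ∀ x k k', ‖(f (x + δ k' + δ k) - f (x + δ k')) - (f (x + δ k) - f x)‖ ≤ η)
    (u : I → ℤ) (hu : ∀ k, u k = 1 ∨ u k = -1) (s : Finset I) (x : G) :
    ‖f (x + ∑ j ∈ s, u j • δ j) - f x - ∑ j ∈ s, (u j : ℝ) • (f (x + δ j) - f x)‖
      ≤ (s.card : ℝ) ^ 2 * η := by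
  induction s using Finset.induction_on with
  | empty => simp
  | insert k s hk ih =>
    have hA := base_shift δ f η h2 u hu s x k
    have hB := base_shift δ f η h2 u hu (insert k s) x k
    rw [Finset.card_insert_of_notMem hk] at hB
    rw [Finset.sum_insert hk] at hB
    rw [Finset.sum_insert hk, Finset.sum_insert hk, Finset.card_insert_of_notMem hk]
    set S := ∑ j ∈ s, u j • δ j with hS
    have key : ‖f (x + (u k • δ k + S)) - f (x + S) - (u k : ℝ) • (f (x + δ k) - f x)‖
        ≤ (s.card + 1 : ℕ) * η := by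
      rcases hu k with h | h
      · rw [h, one_smul]
        have e1 : x + (δ k + S) = x + S + δ k := by abel
        rw [e1]
        simp only [Int.cast_one, one_smul]
        refine hA.trans ?_
        push_cast
        nlinarith
      · rw [h] at hB ⊢
        have e1 : x + ((-1 : ℤ) • δ k + S) + δ k = x + S := by
          rw [neg_smul, one_smul]; abel
        rw [e1] at hB
        have e2 : f (x + ((-1 : ℤ) • δ k + S)) - f (x + S) -
            (((-1 : ℤ) : ℤ) : ℝ) • (f (x + δ k) - f x) =
            -(f (x + S) - f (x + ((-1 : ℤ) • δ k + S)) - (f (x + δ k) - f x)) := by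
          have e0 : (((-1 : ℤ) : ℤ) : ℝ) • (f (x + δ k) - f x) = -(f (x + δ k) - f x) := by
            rw [Int.cast_neg, Int.cast_one, neg_one_smul ℝ]
          rw [e0]
          abel
        rw [e2, norm_neg]
        exact hB
    calc _ = ‖(f (x + (u k • δ k + S)) - f (x + S) - (u k : ℝ) • (f (x + δ k) - f x)) +
          (f (x + S) - f x - ∑ j ∈ s, (u j : ℝ) • (f (x + δ j) - f x))‖ := by
          congr 1; abel
      _ ≤ _ := norm_add_le _ _
      _ ≤ (s.card + 1 : ℕ) * η + (s.card : ℝ) ^ 2 * η := add_le_add key ih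
      _ ≤ ((s.card + 1 : ℕ) : ℝ) ^ 2 * η := by
          push_cast
          have : (0 : ℝ) ≤ s.card := by positivity
          nlinarith

theorem path_lip [DecidableEq I] (δ : I → G) (f : G → Y) (C : ℝ)
    (h : ∀ x k, ‖f (x + δ k) - f x‖ ≤ C)
    (u : I → ℤ) (hu : ∀ k, u k = 1 ∨ u k = -1) (s : Finset I) (x : G) :
    ‖f (x + ∑ j ∈ s, u j • δ j) - f x‖ ≤ s.card * C := by
  induction s using Finset.induction_on with
  | empty => simp
  | insert k s hk ih =>
    rw [Finset.sum_insert hk, Finset.card_insert_of_notMem hk]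
    set S := ∑ j ∈ s, u j • δ j with hS
    have key : ‖f (x + (u k • δ k + S)) - f (x + S)‖ ≤ C := by
      rcases hu k with hh | hh
      · rw [hh, one_smul]
        have e1 : x + (δ k + S) = x + S + δ k := by abel
        rw [e1]
        exact h _ _
      · rw [hh]
        have e1 : x + ((-1 : ℤ) • δ k + S) = x + S - δ k := by
          rw [neg_smul, one_smul]; abel
        rw [e1, norm_sub_rev]
        have := h (x + S - δ k) k
        rw [sub_add_cancel] at this
        exact this
    calc _ = ‖(f (x + (u k • δ k + S)) - f (x + S)) + (f (x + S) - f x)‖ := by congr 1; abel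
      _ ≤ _ := norm_add_le _ _
      _ ≤ C + s.card * C := add_le_add key ih
      _ = ((s.card + 1 : ℕ) : ℝ) * C := by push_cast; ring

variable [Fintype I]

theorem side [NormedSpace ℝ Y] [DecidableEq I] [Nonempty I] [Fintype P] (δ : I → G) (u : P → I → ℤ)
    (hu : ∀ l k, u l k = 1 ∨ u l k = -1) (f : G → Y) (Lip : ℝ) (hLip : 0 ≤ Lip)
    (hf : ∀ x k, ‖f (x + δ k) - f x‖ ≤ Lip / Fintype.card I) (ε : ℝ) (hε : 0 < ε) :
    ∃ r0 : ℕ, ∀ r : ℕ, r0 ≤ r → ∀ x : G, ∃ h : I → Y, (∀ k, ‖h k‖ ≤ Lip) ∧
      ∀ l, ‖(Fintype.card I : ℝ)⁻¹ • ∑ k, (u l k : ℝ) • h k -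
        (avgL r ((Finset.univ : Finset P).toList.map (fun l => ∑ k, u l k • δ k)) f
            (x + ∑ k, u l k • δ k) -
          avgL r ((Finset.univ : Finset P).toList.map (fun l => ∑ k, u l k • δ k)) f x)‖ ≤ ε := by
  set n : ℕ := Fintype.card I with hn
  have hnpos : (0 : ℝ) < n := by
    have : 0 < Fintype.card I := Fintype.card_pos
    exact_mod_cast this
  set e : P → G := fun l => ∑ k, u l k • δ k with he
  obtain ⟨s, hs⟩ := exists_nat_gt (4 * Lip * n / ε)
  have hspos : (0 : ℝ) < s := lt_of_le_of_lt (by positivity) hs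
  obtain ⟨r0, hr0⟩ := exists_nat_gt (4 * Lip * s / ε)
  have hr0pos : (0 : ℝ) < r0 := lt_of_le_of_lt (by positivity) hr0
  refine ⟨r0, fun r hr x => ?_⟩
  have hrr : (r0 : ℝ) ≤ r := by exact_mod_cast hr
  have hrpos : (0 : ℝ) < r := lt_of_lt_of_le hr0pos hrr
  set LE : List G := (Finset.univ : Finset P).toList.map e with hLE
  set LD : List G := (Finset.univ : Finset I).toList.map δ with hLD
  set F := avgL r LE f with hF
  set Fs := avgL s LD F with hFs
  have hFlip : ∀ y k, ‖F (y + δ k) - F y‖ ≤ Lip / n := fun y k =>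
    norm_avgL_diff_le r LE f (Lip / n) (by positivity) (δ k) (fun y => hf y k) y
  have hFslip : ∀ y k, ‖Fs (y + δ k) - Fs y‖ ≤ Lip / n := fun y k =>
    norm_avgL_diff_le s LD F (Lip / n) (by positivity) (δ k) (fun y => hFlip y k) y
  have hmemD : ∀ k, δ k ∈ LD := fun k => by
    rw [hLD, List.mem_map]; exact ⟨k, by simp, rfl⟩
  have hmemE : ∀ l, e l ∈ LE := fun l => by
    rw [hLE, List.mem_map]; exact ⟨l, by simp, rfl⟩
  refine ⟨fun k => (n : ℝ) • (Fs (x + δ k) - Fs x), fun k => ?_, fun l => ?_⟩
  · rw [norm_smul, Real.norm_natCast]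
    have := hFslip x k
    calc (n : ℝ) * ‖Fs (x + δ k) - Fs x‖ ≤ n * (Lip / n) := by gcongr
      _ = Lip := by field_simp
  · have h1 : (n : ℝ)⁻¹ • ∑ k, (u l k : ℝ) • ((n : ℝ) • (Fs (x + δ k) - Fs x)) =
        ∑ k, (u l k : ℝ) • (Fs (x + δ k) - Fs x) := by
      rw [Finset.smul_sum]
      apply Finset.sum_congr rfl
      intro k _
      rw [smul_comm, smul_smul (n : ℝ)⁻¹, inv_mul_cancel₀ hnpos.ne', one_smul]
    rw [h1]
    have hsecond : ∀ y k k', ‖(Fs (y + δ k' + δ k) - Fs (y + δ k')) - (Fs (y + δ k) - Fs y)‖ ≤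
        2 * (Lip / n) / s := by
      intro y k k'
      have := norm_avgL_shift_le s LD (fun z => F (z + δ k) - F z) (Lip / n) (by positivity)
        (fun z => hFlip z k) (δ k') (hmemD k') y
      rw [avgL_sub, avgL_sub, avgL_translate, avgL_translate] at this
      exact this
    have hpath := path_sum δ Fs (2 * (Lip / n) / s) (by positivity) hsecond (u l) (hu l)
      Finset.univ x
    rw [Finset.card_univ] at hpath
    have hE : ∀ y k, ‖(F (y + δ k + e l) - F (y + δ k)) - (F (y + e l) - F y)‖ ≤
        2 * (Lip / n) / r := by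
      intro y k
      have := norm_avgL_shift_le r LE (fun z => f (z + δ k) - f z) (Lip / n) (by positivity)
        (fun z => hf z k) (e l) (hmemE l) y
      rw [avgL_sub, avgL_sub, avgL_translate, avgL_translate] at this
      rw [add_right_comm y (δ k) (e l)]
      convert this using 2
      rw [hF]
      abel
    have hself := norm_avgL_sub_self_le s LD (fun z => F (z + e l) - F z) (2 * (Lip / n) / r)
      (by positivity) (by exact_mod_cast hspos) (by
        intro v hv z
        rw [hLD, List.mem_map] at hv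
        obtain ⟨k, _, rfl⟩ := hv
        exact hE z k) x
    rw [avgL_sub, avgL_translate] at hself
    have hlen : (LD.length : ℝ) = n := by
      rw [hLD, List.length_map, Finset.length_toList, Finset.card_univ]
    rw [hlen] at hself
    have b1 : (n : ℝ) ^ 2 * (2 * (Lip / n) / s) ≤ ε / 2 := by
      have : (n : ℝ) ^ 2 * (2 * (Lip / n) / s) = (4 * Lip * n) / s / 2 := by
        field_simp; ring
      rw [this]
      have : 4 * Lip * n / s ≤ ε := by
        rw [div_le_iff₀ hspos]
        rw [div_lt_iff₀ hε] at hs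
        linarith
      linarith
    have b2 : (s : ℝ) * n * (2 * (Lip / n) / r) ≤ ε / 2 := by
      have : (s : ℝ) * n * (2 * (Lip / n) / r) = (4 * Lip * s) / r / 2 := by
        field_simp; ring
      rw [this]
      have : 4 * Lip * s / r ≤ ε := by
        rw [div_le_iff₀ hrpos]
        rw [div_lt_iff₀ hε] at hr0
        nlinarith
      linarith
    calc _ = ‖-(Fs (x + ∑ j, u l j • δ j) - Fs x - ∑ j, (u l j : ℝ) • (Fs (x + δ j) - Fs x)) +
          (Fs (x + e l) - Fs x - (F (x + e l) - F x))‖ := by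
          congr 1
          abel
      _ ≤ ‖-(Fs (x + ∑ j, u l j • δ j) - Fs x - ∑ j, (u l j : ℝ) • (Fs (x + δ j) - Fs x))‖ +
          ‖Fs (x + e l) - Fs x - (F (x + e l) - F x)‖ := norm_add_le _ _
      _ ≤ ε / 2 + ε / 2 := by
          rw [norm_neg]
          exact add_le_add (hpath.trans b1) (hself.trans b2)
      _ = ε := by ring

end Side

section RealAvg
variable {G : Type*} [AddCommGroup G]

theorem le_avg (n : ℕ) (hn : 0 < n) (v : G) (f : G → ℝ) (c : ℝ) (h : ∀ x, c ≤ f x) (g : G) :
    c ≤ avg n v f g := by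
  unfold avg
  have hn' : (0 : ℝ) < n := by exact_mod_cast hn
  rw [smul_eq_mul, le_inv_mul_iff₀ hn']
  calc (n : ℝ) * c = ∑ t ∈ range n, c := by simp
    _ ≤ _ := Finset.sum_le_sum (fun t _ => h _)

theorem le_avgL (n : ℕ) (hn : 0 < n) (L : List G) (f : G → ℝ) (c : ℝ) (h : ∀ x, c ≤ f x) (g : G) :
    c ≤ avgL n L f g := by
  induction L generalizing g with
  | nil => exact h g
  | cons w L ih =>
    simp only [avgL]
    exact le_avg n hn w _ c ih g

theorem avgL_le (n : ℕ) (hn : 0 < n) (L : List G) (f : G → ℝ) (c : ℝ) (h : ∀ x, f x ≤ c) (g : G) :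
    avgL n L f g ≤ c := by
  have h0 : avgL n L (fun x => 0 - f x) g = 0 - avgL n L f g := by
    rw [avgL_sub]
    congr 1
    have := norm_avgL_le n L (fun _ : G => (0 : ℝ)) 0 le_rfl (by simp) g
    exact norm_le_zero_iff.1 this
  have := le_avgL n hn L (fun x => 0 - f x) (-c) (fun x => by linarith [h x]) g
  rw [h0] at this
  linarith

theorem le_avgL_of_mem (n : ℕ) (hn : 0 < n) (L : List G) (f : G → ℝ) (c : ℝ) (v : G) (hv : v ∈ L)
    (h : ∀ x, c ≤ avg n v f x) (g : G) : c ≤ avgL n L f g := by
  induction L generalizing g with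
  | nil => simp at hv
  | cons w L ih =>
    simp only [avgL]
    rcases List.mem_cons.1 hv with rfl | hv'
    · rw [← avgL_avg_comm]
      exact le_avgL n hn L _ c h g
    · exact le_avg n hn w _ c (fun x => ih hv' x) g

end RealAvg

end Pool.Agent.Helper42.UnionL1
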