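import Pool.Agent.Helper42.UnionSpace

set_option autoImplicit false

namespace Pool.Agent.Helper42.UnionL1

open Finset MeasureTheory

theorem embedA : ∃ (Ω : Type) (_ : MeasurableSpace Ω) (μ : Measure Ω)
    (f : (Set.range inA) → Lp ℝ 1 μ) (c C : ℝ), 0 < c ∧
    ∀ x y : (Set.range inA), c * dist x y ≤ dist (f x) (f y) ∧ dist (f x) (f y) ≤ C * dist x y := by
  let _ : MeasurableSpace Idx := ⊤
  have : MeasurableSingletonClass Idx := ⟨fun _ => trivial⟩
  obtain ⟨J, hJ⟩ := exists_isometry (Ω := Idx)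
  refine ⟨Idx, ⊤, Measure.count, fun x => J x.2.choose, 1, 5, one_pos, fun x y => ?_⟩
  have hx := x.2.choose_spec
  have hy := y.2.choose_spec
  have h1 : dist x y = ‖inA (x.2.choose - y.2.choose)‖ := by
    rw [← inA_sub, hx, hy, ← dist_eq_norm]
    rfl
  rw [hJ, h1, dist_eq_norm, one_mul]
  exact ⟨norm_inA_le _, le_norm_inA _⟩

theorem embedB : ∃ (Ω : Type) (_ : MeasurableSpace Ω) (μ : Measure Ω)
    (f : (Set.range inB) → Lp ℝ 1 μ) (c C : ℝ), 0 < c ∧
    ∀ x y : (Set.range inB), c * dist x y ≤ dist (f x) (f y) ∧ dist (f x) (f y) ≤ C * dist x y := by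
  let _ : MeasurableSpace Idx := ⊤
  have : MeasurableSingletonClass Idx := ⟨fun _ => trivial⟩
  obtain ⟨J, hJ⟩ := exists_isometry (Ω := Idx)
  refine ⟨Idx, ⊤, Measure.count, fun x => J x.2.choose, 1, 5, one_pos, fun x y => ?_⟩
  have hx := x.2.choose_spec
  have hy := y.2.choose_spec
  have h1 : dist x y = ‖inB (x.2.choose - y.2.choose)‖ := by
    rw [← inB_sub, hx, hy, ← dist_eq_norm]
    rfl
  rw [hJ, h1, dist_eq_norm, one_mul]
  exact ⟨norm_inB_le _, le_norm_inB _⟩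

/-- evaluation at an index -/
noncomputable def ev (i : Idx) : Ell →+ ℝ where
  toFun := fun f => f i
  map_zero' := rfl
  map_add' := fun _ _ => rfl

theorem sum_fiber_le_norm (f : Ell) (q : ℕ) : ∑ k : Iq q, |ev ⟨q, k⟩ f| ≤ ‖f‖ := by
  rw [lp_norm_eq]
  have := (lp_summable f).sum_le_tsum
    ((Finset.univ : Finset (Iq q)).map (Function.Embedding.sigmaMk q)) (fun _ _ => abs_nonneg _)
  rw [Finset.sum_map] at this
  exact this

/-- lattice directions -/
noncomputable def dl (q : ℕ) (k : Iq q) : Ell :=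
  lp.single 1 (⟨q, k⟩ : Idx) ((Fintype.card (Iq q) : ℝ)⁻¹)

theorem norm_dl (q : ℕ) (k : Iq q) : ‖dl q k‖ = (Fintype.card (Iq q) : ℝ)⁻¹ := by
  unfold dl
  rw [lp.norm_single (by norm_num), norm_inv, Real.norm_natCast]

theorem ev_dl_self (q : ℕ) (k k' : Iq q) :
    ev ⟨q, k'⟩ (dl q k) = if k = k' then (Fintype.card (Iq q) : ℝ)⁻¹ else 0 := by
  change (dl q k : Idx → ℝ) ⟨q, k'⟩ = _
  unfold dl
  rw [lp.coeFn_single]
  by_cases h : k = k'
  · subst h; simp
  · rw [if_neg h, Pi.single_eq_of_ne]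
    intro h2
    apply h
    have := (Sigma.mk.inj_iff.1 h2).2
    exact (eq_of_heq this).symm

theorem ev_dl_ne (q q' : ℕ) (hq : q' ≠ q) (k : Iq q) (k' : Iq q') : ev ⟨q', k'⟩ (dl q k) = 0 := by
  change (dl q k : Idx → ℝ) ⟨q', k'⟩ = _
  unfold dl
  rw [lp.coeFn_single, Pi.single_eq_of_ne]
  intro h2
  exact hq (Sigma.mk.inj_iff.1 h2).1

theorem ev_comb_self (q : ℕ) (w : Iq q → ℤ) (k' : Iq q) :
    ev ⟨q, k'⟩ (∑ k, w k • dl q k) = w k' * (Fintype.card (Iq q) : ℝ)⁻¹ := by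
  rw [map_sum, Finset.sum_eq_single k']
  · rw [map_zsmul, ev_dl_self, if_pos rfl, zsmul_eq_mul]
  · intro k _ hk
    rw [map_zsmul, ev_dl_self, if_neg hk, smul_zero]
  · simp

theorem ev_comb_ne (q q' : ℕ) (hq : q' ≠ q) (w : Iq q → ℤ) (k' : Iq q') :
    ev ⟨q', k'⟩ (∑ k, w k • dl q k) = 0 := by
  rw [map_sum]
  apply Finset.sum_eq_zero
  intro k _
  rw [map_zsmul, ev_dl_ne q q' hq, smul_zero]

/-- sign vectors of the first copy -/
def uu (q : ℕ) (l : Rq q × Rq q) (k : Iq q) : ℤ := sgn (k.1 l.1) * sgn (k.2 l.2)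
/-- sign vectors of the second copy -/
def vv (q : ℕ) (l : Rq q × Rq q) (k : Iq q) : ℤ := had (4 * q) l.1 l.2 * (sgn (k.1 l.1) * sgn (k.2 l.2))

theorem uu_eq (q : ℕ) (l : Rq q × Rq q) (k : Iq q) : uu q l k = 1 ∨ uu q l k = -1 := by
  unfold uu
  rcases sgn_eq (k.1 l.1) with h | h <;> rcases sgn_eq (k.2 l.2) with h' | h' <;> simp [h, h']

theorem vv_eq (q : ℕ) (l : Rq q × Rq q) (k : Iq q) : vv q l k = 1 ∨ vv q l k = -1 := by
  unfold vv
  rcases had_eq (4 * q) l.1 l.2 with h0 | h0 <;> rcases sgn_eq (k.1 l.1) with h | h <;>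
    rcases sgn_eq (k.2 l.2) with h' | h' <;> simp [h0, h, h']

theorem glue (q : ℕ) (z : Rq q × Rq q → ℤ) :
    inA (∑ l, z l • ∑ k, uu q l k • dl q k) = inB (∑ l, z l • ∑ k, vv q l k • dl q k) := by
  unfold inA inB
  rw [QuotientAddGroup.eq]
  apply S.le_topologicalClosure
  apply S.neg_mem_iff.1
  set p := ∑ l, z l • ∑ k, uu q l k • dl q k with hp
  set p' := ∑ l, z l • ∑ k, vv q l k • dl q k with hp'
  have e0 : -(-(p, (0 : Ell)) + ((0 : Ell), p')) = (p, -p') := by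
    ext1
    · simp
    · simp
  rw [e0]
  intro q'
  by_cases hq : q' = q
  · subst hq
    refine ⟨fun a b => (z (a, b) : ℝ) * (Fintype.card (Iq q') : ℝ)⁻¹, fun k => ⟨?_, ?_⟩⟩
    · change ev ⟨q', k⟩ p = _
      rw [hp, map_sum, Fintype.sum_prod_type]
      unfold chaos
      apply Finset.sum_congr rfl; intro a _
      apply Finset.sum_congr rfl; intro b _
      rw [map_zsmul, ev_comb_self, zsmul_eq_mul, uu]
      push_cast
      ring
    · change ev ⟨q', k⟩ (-p') = _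
      rw [map_neg, hp', map_sum, Fintype.sum_prod_type]
      unfold chaos
      congr 1
      apply Finset.sum_congr rfl; intro a _
      apply Finset.sum_congr rfl; intro b _
      rw [map_zsmul, ev_comb_self, zsmul_eq_mul, vv]
      push_cast
      ring
  · refine ⟨fun _ _ => 0, fun k => ⟨?_, ?_⟩⟩
    · change ev ⟨q', k⟩ p = _
      rw [chaos_zero, hp, map_sum]
      apply Finset.sum_eq_zero
      intro l _
      rw [map_zsmul, ev_comb_ne q q' hq, smul_zero]
    · change ev ⟨q', k⟩ (-p') = _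
      simp only [mul_zero]
      rw [chaos_zero, map_neg, hp', map_sum]
      congr 1
      apply Finset.sum_eq_zero
      intro l _
      rw [map_zsmul, ev_comb_ne q q' hq, smul_zero]

theorem cross (q : ℕ) (k x : Iq q) :
    |∑ l, ((uu q l k : ℤ) : ℝ) * ((vv q l x : ℤ) : ℝ)| ≤ (64 : ℝ) ^ q := by
  have h := lindsey (R := Rq q) (fun a b => ((had (4 * q) a b : ℤ) : ℝ))
    (fun b b' hb => had_ort _ b b' hb) (fun a b => had_sq _ a b)
    (fun a => ((sgn (k.1 a) : ℤ) : ℝ) * ((sgn (x.1 a) : ℤ) : ℝ))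
    (fun b => ((sgn (k.2 b) : ℤ) : ℝ) * ((sgn (x.2 b) : ℤ) : ℝ))
    (fun a => by rw [mul_pow, sgn_sq, sgn_sq, one_mul])
    (fun b => by rw [mul_pow, sgn_sq, sgn_sq, one_mul])
  have e1 : ∑ l, ((uu q l k : ℤ) : ℝ) * ((vv q l x : ℤ) : ℝ) =
      ∑ a, ∑ b, ((had (4 * q) a b : ℤ) : ℝ) *
        (((sgn (k.1 a) : ℤ) : ℝ) * ((sgn (x.1 a) : ℤ) : ℝ)) *
        (((sgn (k.2 b) : ℤ) : ℝ) * ((sgn (x.2 b) : ℤ) : ℝ)) := by
    rw [Fintype.sum_prod_type]
    apply Finset.sum_congr rfl; intro a _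
    apply Finset.sum_congr rfl; intro b _
    rw [uu, vv]
    push_cast
    ring
  rw [e1]
  have hcard : (Fintype.card (Rq q) : ℝ) = 2 ^ (4 * q) := by
    simp [Fintype.card_pi]
  rw [hcard] at h
  have e2 : ((2 : ℝ) ^ (4 * q)) ^ 3 = ((64 : ℝ) ^ q) ^ 2 := by
    rw [← pow_mul, ← pow_mul, show (64 : ℝ) = 2 ^ 6 by norm_num, ← pow_mul]
    congr 1
    ring
  rw [e2] at h
  exact abs_le_of_sq_le_sq h (by positivity)

theorem main_neg : ¬ (∀ (X : Type) [MetricSpace X] (A B : Set X),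
      (∃ (Ω : Type) (_ : MeasurableSpace Ω) (μ : MeasureTheory.Measure Ω)
          (f : A → MeasureTheory.Lp ℝ 1 μ) (c C : ℝ), 0 < c ∧
          ∀ x y : A, c * dist x y ≤ dist (f x) (f y) ∧ dist (f x) (f y) ≤ C * dist x y) →
      (∃ (Ω : Type) (_ : MeasurableSpace Ω) (μ : MeasureTheory.Measure Ω)
          (f : B → MeasureTheory.Lp ℝ 1 μ) (c C : ℝ), 0 < c ∧
          ∀ x y : B, c * dist x y ≤ dist (f x) (f y) ∧ dist (f x) (f y) ≤ C * dist x y) →
      (∃ (Ω : Type) (_ : MeasurableSpace Ω) (μ : MeasureTheory.Measure Ω)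
          (f : ↥(A ∪ B) → MeasureTheory.Lp ℝ 1 μ) (c C : ℝ), 0 < c ∧
          ∀ x y : ↥(A ∪ B), c * dist x y ≤ dist (f x) (f y) ∧
            dist (f x) (f y) ≤ C * dist x y)) := by
  intro h
  obtain ⟨Ω, mΩ, ν, F, c, C, hc, hF⟩ := h X (Set.range inA) (Set.range inB) embedA embedB
  let fA : Ell → Lp ℝ 1 ν := fun f => F ⟨inA f, Or.inl ⟨f, rfl⟩⟩
  let fB : Ell → Lp ℝ 1 ν := fun f => F ⟨inB f, Or.inr ⟨f, rfl⟩⟩
  have key : ∀ q : ℕ, (2 : ℝ) ^ q * (c / 5) ≤ |C| := by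
    intro q
    have hN : (0 : ℝ) < Fintype.card (Iq q) := by exact_mod_cast Fintype.card_pos
    have hmain := two_sided (ν := ν) (dl q) (dl q) (uu q) (vv q) (uu_eq q) (vv_eq q) fA fB |C|
      (abs_nonneg C) (by
        intro x k
        have h1 := (hF ⟨inA (x + dl q k), Or.inl ⟨_, rfl⟩⟩ ⟨inA x, Or.inl ⟨_, rfl⟩⟩).2
        have h2 : dist (⟨inA (x + dl q k), Or.inl ⟨_, rfl⟩⟩ : ↥(Set.range inA ∪ Set.range inB))
            ⟨inA x, Or.inl ⟨_, rfl⟩⟩ ≤ (Fintype.card (Iq q) : ℝ)⁻¹ := by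
          rw [Subtype.dist_eq, dist_eq_norm, inA_sub, add_sub_cancel_left, ← norm_dl q k]
          exact norm_inA_le _
        rw [← dist_eq_norm, div_eq_mul_inv]
        refine h1.trans ?_
        exact mul_le_mul (le_abs_self C) h2 dist_nonneg (abs_nonneg C)) (by
        intro x k
        have h1 := (hF ⟨inB (x + dl q k), Or.inr ⟨_, rfl⟩⟩ ⟨inB x, Or.inr ⟨_, rfl⟩⟩).2
        have h2 : dist (⟨inB (x + dl q k), Or.inr ⟨_, rfl⟩⟩ : ↥(Set.range inA ∪ Set.range inB))
            ⟨inB x, Or.inr ⟨_, rfl⟩⟩ ≤ (Fintype.card (Iq q) : ℝ)⁻¹ := by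
          rw [Subtype.dist_eq, dist_eq_norm, inB_sub, add_sub_cancel_left, ← norm_dl q k]
          exact norm_inB_le _
        rw [← dist_eq_norm, div_eq_mul_inv]
        refine h1.trans ?_
        exact mul_le_mul (le_abs_self C) h2 dist_nonneg (abs_nonneg C)) (by
        intro z
        change F _ = F _
        congr 1
        apply Subtype.ext
        exact glue q z) (c / 5) (by
        intro z l t
        set x := ∑ l, z l • ∑ k, uu q l k • dl q k with hx
        set e := ∑ k, uu q l k • dl q k with he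
        have h1 := (hF ⟨inA (x + t • e), Or.inl ⟨_, rfl⟩⟩ ⟨inA x, Or.inl ⟨_, rfl⟩⟩).1
        have h2 : (t : ℝ) / 5 ≤
            dist (⟨inA (x + t • e), Or.inl ⟨_, rfl⟩⟩ : ↥(Set.range inA ∪ Set.range inB))
            ⟨inA x, Or.inl ⟨_, rfl⟩⟩ := by
          rw [Subtype.dist_eq, dist_eq_norm, inA_sub, add_sub_cancel_left]
          have h3 := le_norm_inA (t • e)
          have h4 := sum_fiber_le_norm (t • e) q
          have h5 : ∑ k : Iq q, |ev ⟨q, k⟩ (t • e)| = t := by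
            have : ∀ k : Iq q, |ev ⟨q, k⟩ (t • e)| = t * (Fintype.card (Iq q) : ℝ)⁻¹ := by
              intro k
              rw [map_nsmul, he, ev_comb_self, nsmul_eq_mul, abs_mul, abs_mul, Nat.abs_cast,
                abs_of_pos (inv_pos.2 hN)]
              have : |((uu q l k : ℤ) : ℝ)| = 1 := by
                rcases uu_eq q l k with h | h <;> rw [h] <;> simp
              rw [this, one_mul]
            simp_rw [this]
            rw [Finset.sum_const, Finset.card_univ, nsmul_eq_mul]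
            field_simp
          rw [h5] at h4
          linarith
        rw [← dist_eq_norm]
        calc c / 5 * t = c * (t / 5) := by ring
          _ ≤ c * _ := mul_le_mul_of_nonneg_left h2 hc.le
          _ ≤ _ := h1) ((64 : ℝ) ^ q) (by positivity) (cross q) ((128 : ℝ) ^ q) (by positivity)
    have hcard : (Fintype.card (Rq q × Rq q) : ℝ) = 2 ^ q * 128 ^ q := by
      rw [Fintype.card_prod]
      have : Fintype.card (Rq q) = 2 ^ (4 * q) := by simp [Fintype.card_pi]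
      rw [this]
      push_cast
      rw [← pow_add, ← mul_pow, show (2 : ℝ) * 128 = 2 ^ 8 by norm_num, ← pow_mul]
      congr 1
      ring
    rw [hcard] at hmain
    have e1 : (2 : ℝ) ^ q * 128 ^ q / 128 ^ q = 2 ^ q := by
      field_simp
    rw [e1] at hmain
    have e2 : (2 : ℝ) ^ q * (64 ^ q * |C|) = 128 ^ q * |C| := by
      rw [← mul_assoc, ← mul_pow]; norm_num
    rw [e2] at hmain
    have e3 : (128 : ℝ) ^ q * (2 ^ q * (c / 5)) ≤ 128 ^ q * |C| := by
      calc _ = 2 ^ q * 128 ^ q * (c / 5) := by ring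
        _ ≤ _ := hmain
        _ = _ := by ring
    exact le_of_mul_le_mul_left e3 (by positivity)
  obtain ⟨q, hq⟩ := pow_unbounded_of_one_lt (|C| / (c / 5)) (one_lt_two (α := ℝ))
  have h1 := key q
  rw [div_lt_iff₀ (by positivity)] at hq
  linarith

end Pool.Agent.Helper42.UnionL1
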