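import Mathlib

set_option autoImplicit false
set_option linter.unusedSectionVars false

namespace Pool.Agent.Helper42.UnionL1

open Finset

/-- sign of a boolean -/
def sgn (b : Bool) : ℤ := if b then 1 else -1

theorem sgn_eq (b : Bool) : sgn b = 1 ∨ sgn b = -1 := by
  cases b <;> simp [sgn]

theorem sgn_sq (b : Bool) : ((sgn b : ℤ) : ℝ) ^ 2 = 1 := by
  cases b <;> simp [sgn]

theorem sgn_mul_self (b : Bool) : ((sgn b : ℤ) : ℝ) * ((sgn b : ℤ) : ℝ) = 1 := by
  cases b <;> simp [sgn]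

theorem sgn_not (b : Bool) : ((sgn (!b) : ℤ) : ℝ) = -((sgn b : ℤ) : ℝ) := by
  cases b <;> simp [sgn]

section
variable {R : Type*} [Fintype R] [DecidableEq R]

/-- flip one coordinate -/
def flip (a : R) (x : R → Bool) : R → Bool := Function.update x a (!x a)

theorem flip_same (a : R) (x : R → Bool) : flip a x a = !x a := by simp [flip]

theorem flip_ne (a b : R) (h : b ≠ a) (x : R → Bool) : flip a x b = x b := by
  simp [flip, h]

theorem flip_invol (a : R) : Function.Involutive (flip a : (R → Bool) → (R → Bool)) := by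
  intro x
  funext b
  by_cases h : b = a
  · subst h; rw [flip_same, flip_same]; simp
  · rw [flip_ne a b h, flip_ne a b h]

theorem sum_sgn_mul_eq_zero (a : R) (f : (R → Bool) → ℝ) (hf : ∀ x, f (flip a x) = f x) :
    ∑ x : R → Bool, ((sgn (x a) : ℤ) : ℝ) * f x = 0 := by
  have h1 : ∑ x : R → Bool, ((sgn (x a) : ℤ) : ℝ) * f x =
      ∑ x : R → Bool, ((sgn ((flip a x) a) : ℤ) : ℝ) * f (flip a x) :=
    (Equiv.sum_comp (flip_invol a).toPerm (fun x : R → Bool => ((sgn (x a) : ℤ) : ℝ) * f x)).symm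
  have h2 : ∑ x : R → Bool, ((sgn ((flip a x) a) : ℤ) : ℝ) * f (flip a x) =
      -∑ x : R → Bool, ((sgn (x a) : ℤ) : ℝ) * f x := by
    rw [← Finset.sum_neg_distrib]
    apply Finset.sum_congr rfl
    intro x _
    rw [hf, flip_same, sgn_not]; ring
  linarith

/-- partial Rademacher sum -/
noncomputable def T (c : R → ℝ) (s : Finset R) (x : R → Bool) : ℝ :=
  ∑ a ∈ s, c a * ((sgn (x a) : ℤ) : ℝ)

theorem T_flip (c : R → ℝ) (s : Finset R) (a : R) (ha : a ∉ s) (x : R → Bool) :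
    T c s (flip a x) = T c s x := by
  unfold T
  apply Finset.sum_congr rfl
  intro b hb
  rw [flip_ne a b (by rintro rfl; exact ha hb)]

theorem T_insert (c : R → ℝ) (s : Finset R) (a : R) (ha : a ∉ s) (x : R → Bool) :
    T c (insert a s) x = c a * ((sgn (x a) : ℤ) : ℝ) + T c s x := by
  unfold T
  rw [Finset.sum_insert ha]

theorem moment2 (c : R → ℝ) (s : Finset R) :
    ∑ x, (T c s x) ^ 2 = Fintype.card (R → Bool) * ∑ a ∈ s, c a ^ 2 := by
  induction s using Finset.induction_on with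
  | empty => simp [T]
  | insert a s ha ih =>
    have h1 : ∀ x, (T c (insert a s) x) ^ 2 = c a ^ 2 + 2 * c a * (((sgn (x a) : ℤ) : ℝ) * T c s x)
        + (T c s x) ^ 2 := by
      intro x
      rw [T_insert c s a ha]
      have := sgn_sq (x a)
      linear_combination (c a) ^ 2 * this
    simp_rw [h1]
    rw [Finset.sum_add_distrib, Finset.sum_add_distrib, ih, ← Finset.mul_sum,
      sum_sgn_mul_eq_zero a (T c s) (T_flip c s a ha), Finset.sum_insert ha]
    rw [Finset.sum_const, Finset.card_univ, nsmul_eq_mul]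
    ring

theorem moment4 (c : R → ℝ) (s : Finset R) :
    ∑ x, (T c s x) ^ 4 ≤ 3 * Fintype.card (R → Bool) * (∑ a ∈ s, c a ^ 2) ^ 2 := by
  induction s using Finset.induction_on with
  | empty => simp [T]
  | insert a s ha ih =>
    have h1 : ∀ x, (T c (insert a s) x) ^ 4 = c a ^ 4 +
        4 * c a ^ 3 * (((sgn (x a) : ℤ) : ℝ) * T c s x) + 6 * c a ^ 2 * (T c s x) ^ 2 +
        4 * c a * (((sgn (x a) : ℤ) : ℝ) * (T c s x) ^ 3) + (T c s x) ^ 4 := by
      intro x
      rw [T_insert c s a ha]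
      have h := sgn_sq (x a)
      have h3 : ((sgn (x a) : ℤ) : ℝ) ^ 3 = ((sgn (x a) : ℤ) : ℝ) := by
        rw [pow_succ, h, one_mul]
      have h4 : ((sgn (x a) : ℤ) : ℝ) ^ 4 = 1 := by
        rw [show (4 : ℕ) = 2 * 2 from rfl, pow_mul, h, one_pow]
      linear_combination (c a) ^ 4 * h4 + 4 * (c a) ^ 3 * T c s x * h3 +
        6 * (c a) ^ 2 * (T c s x) ^ 2 * h
    simp_rw [h1]
    rw [Finset.sum_add_distrib, Finset.sum_add_distrib, Finset.sum_add_distrib,
      Finset.sum_add_distrib, ← Finset.mul_sum, ← Finset.mul_sum, ← Finset.mul_sum,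
      sum_sgn_mul_eq_zero a (T c s) (T_flip c s a ha),
      sum_sgn_mul_eq_zero a (fun x => (T c s x) ^ 3) (fun x => by
        rw [T_flip c s a ha]), Finset.sum_insert ha, moment2]
    rw [Finset.sum_const, Finset.card_univ, nsmul_eq_mul]
    set n : ℝ := (Fintype.card (R → Bool) : ℝ) with hn
    have hn0 : 0 ≤ n := by positivity
    set σ := ∑ a ∈ s, c a ^ 2 with hσ
    have hσ0 : 0 ≤ σ := Finset.sum_nonneg (fun _ _ => sq_nonneg _)
    have h5 : 0 ≤ n * c a ^ 4 := by positivity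
    nlinarith

theorem poly_bound (S l : ℝ) (hl : 0 < l) : (3 * S ^ 2 / l - S ^ 4 / l ^ 3) / 2 ≤ |S| := by
  have h0 : 0 ≤ |S| := abs_nonneg S
  have h2 : S ^ 2 = |S| ^ 2 := (sq_abs S).symm
  have h4 : S ^ 4 = |S| ^ 4 := by
    rw [show (4 : ℕ) = 2 * 2 from rfl, pow_mul, pow_mul, sq_abs]
  rw [h2, h4]
  set t := |S| with ht
  have : t - (3 * t ^ 2 / l - t ^ 4 / l ^ 3) / 2 = t * (t - l) ^ 2 * (t + 2 * l) / (2 * l ^ 3) := by
    field_simp
    ring
  have h3 : 0 ≤ t * (t - l) ^ 2 * (t + 2 * l) / (2 * l ^ 3) := by positivity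
  linarith

theorem khin (c : R → ℝ) :
    Fintype.card (R → Bool) * Real.sqrt (∑ a, c a ^ 2) ≤ 2 * ∑ x, |T c Finset.univ x| := by
  set n : ℝ := (Fintype.card (R → Bool) : ℝ) with hn
  have hn0 : 0 ≤ n := by positivity
  set σ := Real.sqrt (∑ a, c a ^ 2) with hσ
  have hs0 : 0 ≤ ∑ a, c a ^ 2 := Finset.sum_nonneg (fun _ _ => sq_nonneg _)
  have hσ2 : σ ^ 2 = ∑ a, c a ^ 2 := Real.sq_sqrt hs0
  rcases (Real.sqrt_nonneg (∑ a, c a ^ 2)).eq_or_lt with h | h
  · rw [← hσ] at h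
    rw [← h, mul_zero]
    exact mul_nonneg (by norm_num) (Finset.sum_nonneg (fun _ _ => abs_nonneg _))
  · rw [← hσ] at h
    have h1 : ∑ x, ((3 * (T c Finset.univ x) ^ 2 / (2 * σ) - (T c Finset.univ x) ^ 4 / (2 * σ) ^ 3) / 2)
        ≤ ∑ x, |T c Finset.univ x| :=
      Finset.sum_le_sum (fun x _ => poly_bound _ _ (by positivity))
    have h2 : ∑ x, ((3 * (T c Finset.univ x) ^ 2 / (2 * σ) - (T c Finset.univ x) ^ 4 / (2 * σ) ^ 3) / 2)
        = (3 * (∑ x, (T c Finset.univ x) ^ 2) / (2 * σ) -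
          (∑ x, (T c Finset.univ x) ^ 4) / (2 * σ) ^ 3) / 2 := by
      rw [← Finset.sum_div, Finset.sum_sub_distrib, ← Finset.sum_div, ← Finset.sum_div,
        ← Finset.mul_sum]
    rw [h2, moment2, ← hσ2] at h1
    have h4 := moment4 c Finset.univ
    rw [← hσ2] at h4
    have h5 : (∑ x, (T c Finset.univ x) ^ 4) / (2 * σ) ^ 3 ≤
        (3 * n * (σ ^ 2) ^ 2) / (2 * σ) ^ 3 := by
      apply div_le_div_of_nonneg_right h4 (by positivity)
    have h6 : (3 * (n * σ ^ 2) / (2 * σ) - (3 * n * (σ ^ 2) ^ 2) / (2 * σ) ^ 3) / 2 =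
        n * σ * (9 / 16) := by
      field_simp
      ring
    have h7 : 0 ≤ n * σ := by positivity
    have h8 : n * σ * (9 / 16) ≤ ∑ x, |T c Finset.univ x| := by
      rw [← h6]
      linarith
    linarith

/-- the (unnormalised) `L_1` norm of a decoupled Rademacher chaos -/
noncomputable def Q (e : R → R → ℝ) : ℝ :=
  ∑ y : R → Bool, ∑ x : R → Bool, |∑ a, ∑ b, e a b * ((sgn (x a) : ℤ) : ℝ) * ((sgn (y b) : ℤ) : ℝ)|

theorem inner_eq (e : R → R → ℝ) (x y : R → Bool) :
    ∑ a, ∑ b, e a b * ((sgn (x a) : ℤ) : ℝ) * ((sgn (y b) : ℤ) : ℝ) =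
      T (fun a => T (e a) Finset.univ y) Finset.univ x := by
  unfold T
  apply Finset.sum_congr rfl
  intro a _
  rw [Finset.sum_mul]
  apply Finset.sum_congr rfl
  intro b _
  ring

theorem Q_lower (e : R → R → ℝ) :
    (Fintype.card (R → Bool) : ℝ) ^ 2 * Real.sqrt (∑ a, ∑ b, e a b ^ 2) ≤ 4 * Q e := by
  set n : ℝ := (Fintype.card (R → Bool) : ℝ) with hn
  have hn0 : 0 ≤ n := by positivity
  set σ : R → ℝ := fun a => Real.sqrt (∑ b, e a b ^ 2) with hσ
  have hσ2 : ∀ a, σ a ^ 2 = ∑ b, e a b ^ 2 := fun a =>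
    Real.sq_sqrt (Finset.sum_nonneg (fun _ _ => sq_nonneg _))
  set E := Real.sqrt (∑ a, ∑ b, e a b ^ 2) with hE
  have hE2 : E ^ 2 = ∑ a, ∑ b, e a b ^ 2 :=
    Real.sq_sqrt (Finset.sum_nonneg (fun _ _ => Finset.sum_nonneg (fun _ _ => sq_nonneg _)))
  have hE2' : E ^ 2 = ∑ a, σ a ^ 2 := by rw [hE2]; simp_rw [hσ2]
  have hE0 : 0 ≤ E := Real.sqrt_nonneg _
  rcases hE0.eq_or_lt with h | h
  · rw [← h, mul_zero]
    unfold Q
    exact mul_nonneg (by norm_num) (Finset.sum_nonneg (fun _ _ =>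
      Finset.sum_nonneg (fun _ _ => abs_nonneg _)))
  · set V : R → (R → Bool) → ℝ := fun a y => T (e a) Finset.univ y with hV
    have h1 : n * ∑ y, Real.sqrt (∑ a, V a y ^ 2) ≤ 2 * Q e := by
      unfold Q
      rw [Finset.mul_sum, Finset.mul_sum]
      apply Finset.sum_le_sum
      intro y _
      have := khin (fun a => V a y)
      refine this.trans (le_of_eq ?_)
      congr 1
      apply Finset.sum_congr rfl
      intro x _
      rw [inner_eq]
    have h2 : ∀ y, ∑ a, σ a * |V a y| ≤ E * Real.sqrt (∑ a, V a y ^ 2) := by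
      intro y
      have hcs := Finset.sum_mul_sq_le_sq_mul_sq Finset.univ σ (fun a => |V a y|)
      have h3 : (∑ a, σ a * |V a y|) ^ 2 ≤ (E * Real.sqrt (∑ a, V a y ^ 2)) ^ 2 := by
        rw [mul_pow, hE2', Real.sq_sqrt (Finset.sum_nonneg (fun _ _ => sq_nonneg _))]
        simpa only [sq_abs] using hcs
      exact abs_le_of_sq_le_sq' h3 (by positivity) |>.2
    have h3 : ∑ a, σ a * (n * σ a) ≤ 2 * ∑ y, ∑ a, σ a * |V a y| := by
      rw [Finset.sum_comm, Finset.mul_sum]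
      apply Finset.sum_le_sum
      intro a _
      rw [← Finset.mul_sum]
      have := khin (e a)
      calc σ a * (n * σ a) ≤ σ a * (2 * ∑ y, |V a y|) :=
            mul_le_mul_of_nonneg_left this (Real.sqrt_nonneg _)
        _ = 2 * (σ a * ∑ y, |V a y|) := by ring
    have h4 : ∑ y, ∑ a, σ a * |V a y| ≤ E * ∑ y, Real.sqrt (∑ a, V a y ^ 2) := by
      rw [Finset.mul_sum]
      exact Finset.sum_le_sum (fun y _ => h2 y)
    have h5 : ∑ a, σ a * (n * σ a) = n * E ^ 2 := by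
      rw [hE2', Finset.mul_sum]
      apply Finset.sum_congr rfl
      intro a _
      ring
    rw [h5] at h3
    have h6 : n * E ≤ 2 * ∑ y, Real.sqrt (∑ a, V a y ^ 2) := by
      have : E * (n * E) ≤ E * (2 * ∑ y, Real.sqrt (∑ a, V a y ^ 2)) := by nlinarith
      exact le_of_mul_le_mul_left this h
    nlinarith

theorem Q_upper (e : R → R → ℝ) :
    Q e ≤ (Fintype.card (R → Bool) : ℝ) ^ 2 * Real.sqrt (∑ a, ∑ b, e a b ^ 2) := by
  set n : ℝ := (Fintype.card (R → Bool) : ℝ) with hn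
  have hn0 : 0 ≤ n := by positivity
  set E := Real.sqrt (∑ a, ∑ b, e a b ^ 2) with hE
  have hE2 : E ^ 2 = ∑ a, ∑ b, e a b ^ 2 :=
    Real.sq_sqrt (Finset.sum_nonneg (fun _ _ => Finset.sum_nonneg (fun _ _ => sq_nonneg _)))
  have hE0 : 0 ≤ E := Real.sqrt_nonneg _
  have h1 : ∀ y : R → Bool, (∑ x : R → Bool,
      |∑ a, ∑ b, e a b * ((sgn (x a) : ℤ) : ℝ) * ((sgn (y b) : ℤ) : ℝ)|) ^ 2 ≤
      n * (n * ∑ a, (T (e a) Finset.univ y) ^ 2) := by
    intro y
    have hcs := sq_sum_le_card_mul_sum_sq (s := (Finset.univ : Finset (R → Bool)))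
      (f := fun x => |∑ a, ∑ b, e a b * ((sgn (x a) : ℤ) : ℝ) * ((sgn (y b) : ℤ) : ℝ)|)
    rw [Finset.card_univ] at hcs
    refine hcs.trans ?_
    rw [← hn]
    apply mul_le_mul_of_nonneg_left _ hn0
    simp only [sq_abs]
    simp_rw [inner_eq]
    rw [moment2]
  have h2 : (Q e) ^ 2 ≤ (n ^ 2 * E) ^ 2 := by
    have hcs := sq_sum_le_card_mul_sum_sq (s := (Finset.univ : Finset (R → Bool)))
      (f := fun y => ∑ x : R → Bool,
        |∑ a, ∑ b, e a b * ((sgn (x a) : ℤ) : ℝ) * ((sgn (y b) : ℤ) : ℝ)|)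
    rw [Finset.card_univ, ← hn] at hcs
    refine hcs.trans ?_
    calc _ ≤ n * ∑ y : R → Bool, (n * (n * ∑ a, (T (e a) Finset.univ y) ^ 2)) := by
          apply mul_le_mul_of_nonneg_left _ hn0
          exact Finset.sum_le_sum (fun y _ => h1 y)
      _ = n * (n * (n * ∑ a, ∑ y, (T (e a) Finset.univ y) ^ 2)) := by
          rw [← Finset.mul_sum, ← Finset.mul_sum, Finset.sum_comm]
      _ = n * (n * (n * ∑ a, (n * ∑ b, e a b ^ 2))) := by
          congr 3
          apply Finset.sum_congr rfl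
          intro a _
          rw [moment2]
      _ = (n ^ 2 * E) ^ 2 := by
          rw [← Finset.mul_sum, mul_pow, hE2]; ring
  exact abs_le_of_sq_le_sq' h2 (by positivity) |>.2

theorem Q_comp (e : R → R → ℝ) (H : R → R → ℝ) (hH : ∀ a b, H a b ^ 2 = 1) :
    Q e ≤ 4 * Q (fun a b => H a b * e a b) := by
  have h1 := Q_upper e
  have h2 := Q_lower (fun a b => H a b * e a b)
  have h3 : ∑ a, ∑ b, (H a b * e a b) ^ 2 = ∑ a, ∑ b, e a b ^ 2 := by
    apply Finset.sum_congr rfl; intro a _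
    apply Finset.sum_congr rfl; intro b _
    rw [mul_pow, hH, one_mul]
  rw [h3] at h2
  exact h1.trans h2

/-- Lindsey's lemma in squared form. -/
theorem lindsey (H : R → R → ℝ)
    (hort : ∀ b b', b ≠ b' → ∑ a, H a b * H a b' = 0) (hH : ∀ a b, H a b ^ 2 = 1)
    (s t : R → ℝ) (hs : ∀ a, s a ^ 2 = 1) (ht : ∀ b, t b ^ 2 = 1) :
    (∑ a, ∑ b, H a b * s a * t b) ^ 2 ≤ (Fintype.card R : ℝ) ^ 3 := by
  set m : ℝ := (Fintype.card R : ℝ) with hm
  have e1 : ∑ a, ∑ b, H a b * s a * t b = ∑ a, s a * ∑ b, H a b * t b := by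
    apply Finset.sum_congr rfl; intro a _
    rw [Finset.mul_sum]
    apply Finset.sum_congr rfl; intro b _
    ring
  rw [e1]
  refine (Finset.sum_mul_sq_le_sq_mul_sq Finset.univ s (fun a => ∑ b, H a b * t b)).trans ?_
  have e2 : ∑ a, s a ^ 2 = m := by simp [hs, hm]
  have e3 : ∑ a, (∑ b, H a b * t b) ^ 2 = m ^ 2 := by
    have : ∀ a, (∑ b, H a b * t b) ^ 2 = ∑ b, ∑ b', (H a b * H a b') * (t b * t b') := by
      intro a
      rw [sq, Finset.sum_mul_sum]
      apply Finset.sum_congr rfl; intro b _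
      apply Finset.sum_congr rfl; intro b' _
      ring
    simp_rw [this]
    rw [Finset.sum_comm]
    have h2 : ∀ b, ∑ a, ∑ b', (H a b * H a b') * (t b * t b') = m := by
      intro b
      rw [Finset.sum_comm, Finset.sum_eq_single b]
      · have : ∀ a, H a b * H a b * (t b * t b) = 1 := by
          intro a
          have h1 := hH a b
          have h2 := ht b
          rw [← sq, ← sq, h1, h2, one_mul]
        simp [this, hm]
      · intro b' _ hb'
        rw [← Finset.sum_mul, hort b b' (Ne.symm hb'), zero_mul]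
      · simp
    simp_rw [h2]
    rw [Finset.sum_const, Finset.card_univ, nsmul_eq_mul]; ring
  rw [e2, e3]
  exact le_of_eq (by ring)

end

/-- Sylvester's Hadamard matrix indexed by boolean vectors -/
def had (p : ℕ) (a b : Fin p → Bool) : ℤ := ∏ i, if a i && b i then -1 else 1

theorem had_eq (p : ℕ) (a b : Fin p → Bool) : had p a b = 1 ∨ had p a b = -1 := by
  unfold had
  induction (Finset.univ : Finset (Fin p)) using Finset.induction_on with
  | empty => simp
  | insert i s hi ih =>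
    rw [Finset.prod_insert hi]
    rcases ih with h | h <;> rw [h] <;> split_ifs <;> simp

theorem had_sq (p : ℕ) (a b : Fin p → Bool) : ((had p a b : ℤ) : ℝ) ^ 2 = 1 := by
  rcases had_eq p a b with h | h <;> simp [h]

theorem had_ort (p : ℕ) (b b' : Fin p → Bool) (h : b ≠ b') :
    ∑ a, ((had p a b : ℤ) : ℝ) * ((had p a b' : ℤ) : ℝ) = 0 := by
  have e1 : ∑ a, had p a b * had p a b' = 0 := by
    unfold had
    simp_rw [← Finset.prod_mul_distrib]
    have e2 := (Finset.prod_univ_sum (fun _ : Fin p => (Finset.univ : Finset Bool))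
      (fun i c => (if c && b i then (-1 : ℤ) else 1) * (if c && b' i then (-1 : ℤ) else 1)))
    rw [Fintype.piFinset_univ] at e2
    rw [← e2]
    obtain ⟨i, hi⟩ := Function.ne_iff.1 h
    apply Finset.prod_eq_zero (Finset.mem_univ i)
    rw [Fintype.sum_bool]
    cases hb : b i <;> cases hb' : b' i <;> simp_all
  exact_mod_cast e1

end Pool.Agent.Helper42.UnionL1
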