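import Pool.Agent.Helper42.UnionAvg

set_option autoImplicit false

namespace Pool.Agent.Helper42.UnionL1

open Finset MeasureTheory

theorem real_ineq {I J P : Type*} [Fintype I] [Fintype J] [Fintype P] (n n' : ℝ) (hn : 0 < n)
    (hn' : 0 < n') (u : P → I → ℤ) (v : P → J → ℤ) (hu : ∀ l k, |(u l k : ℝ)| ≤ 1)
    (M : ℝ) (hM : ∀ k x, |∑ l, (u l k : ℝ) * (v l x : ℝ)| ≤ M) (hM0 : 0 ≤ M)
    (τ : ℝ) (hτ : 0 < τ) (h : I → ℝ) (g : J → ℝ) :
    ∑ l, |n⁻¹ * ∑ k, (u l k : ℝ) * h k| ≤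
      (τ * (n⁻¹ * ∑ k, |h k|) + (Fintype.card P / τ) * (M * (n'⁻¹ * ∑ x, |g x|) +
        ∑ l, |n⁻¹ * (∑ k, (u l k : ℝ) * h k) - n'⁻¹ * ∑ x, (v l x : ℝ) * g x|)) / 2 := by
  set θ : P → ℝ := fun l => n⁻¹ * ∑ k, (u l k : ℝ) * h k with hθ
  set θ' : P → ℝ := fun l => n'⁻¹ * ∑ x, (v l x : ℝ) * g x with hθ'
  set H := n⁻¹ * ∑ k, |h k| with hH
  set Gm := n'⁻¹ * ∑ x, |g x| with hGm
  set Δ := ∑ l, |θ l - θ' l| with hΔ
  have hH0 : 0 ≤ H := by
    apply mul_nonneg (by positivity)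
    exact Finset.sum_nonneg (fun _ _ => abs_nonneg _)
  have hG0 : 0 ≤ Gm := by
    apply mul_nonneg (by positivity)
    exact Finset.sum_nonneg (fun _ _ => abs_nonneg _)
  have hΔ0 : 0 ≤ Δ := Finset.sum_nonneg (fun _ _ => abs_nonneg _)
  have hθH : ∀ l, |θ l| ≤ H := by
    intro l
    rw [hθ, hH]
    simp only
    rw [abs_mul, abs_of_pos (by positivity : 0 < n⁻¹)]
    apply mul_le_mul_of_nonneg_left _ (by positivity)
    refine (Finset.abs_sum_le_sum_abs _ _).trans ?_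
    apply Finset.sum_le_sum
    intro k _
    rw [abs_mul]
    calc |(u l k : ℝ)| * |h k| ≤ 1 * |h k| := by gcongr; exact hu l k
      _ = |h k| := one_mul _
  have hcross : ∑ l, θ l * θ' l ≤ M * H * Gm := by
    have e1 : ∑ l, θ l * θ' l =
        n⁻¹ * n'⁻¹ * ∑ k, ∑ x, h k * g x * ∑ l, (u l k : ℝ) * (v l x : ℝ) := by
      rw [hθ, hθ']
      simp only
      have : ∀ l, (n⁻¹ * ∑ k, (u l k : ℝ) * h k) * (n'⁻¹ * ∑ x, (v l x : ℝ) * g x) =
          n⁻¹ * n'⁻¹ * ∑ k, ∑ x, (h k * g x * ((u l k : ℝ) * (v l x : ℝ))) := by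
        intro l
        have : (n⁻¹ * ∑ k, (u l k : ℝ) * h k) * (n'⁻¹ * ∑ x, (v l x : ℝ) * g x) =
          n⁻¹ * n'⁻¹ * ((∑ k, (u l k : ℝ) * h k) * (∑ x, (v l x : ℝ) * g x)) := by ring
        rw [this, Finset.sum_mul_sum]
        congr 1
        apply Finset.sum_congr rfl; intro k _
        apply Finset.sum_congr rfl; intro x _
        ring
      simp_rw [this]
      rw [← Finset.mul_sum]
      congr 1
      rw [Finset.sum_comm]
      apply Finset.sum_congr rfl; intro k _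
      rw [Finset.sum_comm]
      apply Finset.sum_congr rfl; intro x _
      rw [Finset.mul_sum]
    rw [e1]
    have e2 : ∑ k, ∑ x, h k * g x * ∑ l, (u l k : ℝ) * (v l x : ℝ) ≤
        ∑ k, ∑ x, |h k| * |g x| * M := by
      apply Finset.sum_le_sum; intro k _
      apply Finset.sum_le_sum; intro x _
      calc _ ≤ |h k * g x * ∑ l, (u l k : ℝ) * (v l x : ℝ)| := le_abs_self _
        _ = |h k| * |g x| * |∑ l, (u l k : ℝ) * (v l x : ℝ)| := by rw [abs_mul, abs_mul]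
        _ ≤ _ := by gcongr; exact hM k x
    have e3 : ∑ k, ∑ x, |h k| * |g x| * M = M * ((∑ k, |h k|) * (∑ x, |g x|)) := by
      rw [Finset.sum_mul_sum, Finset.mul_sum]
      apply Finset.sum_congr rfl; intro k _
      rw [Finset.mul_sum]
      apply Finset.sum_congr rfl; intro x _
      ring
    rw [e3] at e2
    calc _ ≤ n⁻¹ * n'⁻¹ * (M * ((∑ k, |h k|) * (∑ x, |g x|))) :=
          mul_le_mul_of_nonneg_left e2 (by positivity)
      _ = M * H * Gm := by rw [hH, hGm]; ring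
  have hsq : ∑ l, |θ l| ^ 2 ≤ H * (Δ + M * Gm) := by
    have e1 : ∀ l, |θ l| ^ 2 = θ l * (θ l - θ' l) + θ l * θ' l := by
      intro l; rw [sq_abs]; ring
    simp_rw [e1]
    rw [Finset.sum_add_distrib]
    have e2 : ∑ l, θ l * (θ l - θ' l) ≤ H * Δ := by
      rw [hΔ, Finset.mul_sum]
      apply Finset.sum_le_sum; intro l _
      calc _ ≤ |θ l * (θ l - θ' l)| := le_abs_self _
        _ = |θ l| * |θ l - θ' l| := abs_mul _ _
        _ ≤ _ := by gcongr; exact hθH l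
    nlinarith
  set s := ∑ l, |θ l| with hs
  have hs0 : 0 ≤ s := Finset.sum_nonneg (fun _ _ => abs_nonneg _)
  have hs2 : s ^ 2 ≤ H * (Fintype.card P * (M * Gm + Δ)) := by
    have := sq_sum_le_card_mul_sum_sq (s := (Finset.univ : Finset P)) (f := fun l => |θ l|)
    rw [Finset.card_univ] at this
    calc s ^ 2 ≤ Fintype.card P * ∑ l, |θ l| ^ 2 := this
      _ ≤ Fintype.card P * (H * (Δ + M * Gm)) := by gcongr
      _ = _ := by ring
  set W := (Fintype.card P : ℝ) * (M * Gm + Δ) with hW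
  have hW0 : 0 ≤ W := by positivity
  have e : (Fintype.card P / τ) * (M * Gm + Δ) = W / τ := by rw [hW]; ring
  rw [e]
  have hX0 : 0 ≤ (τ * H + W / τ) / 2 := by positivity
  refine le_of_not_gt fun hlt => ?_
  have h1 := pow_lt_pow_left₀ hlt hX0 (two_ne_zero)
  have h2 : H * W = (τ * H) * (W / τ) := by field_simp
  nlinarith [sq_nonneg (τ * H - W / τ)]

theorem coeFn_lincomb {Ω κ : Type*} [MeasurableSpace Ω] {ν : Measure Ω} (s : Finset κ)
    (c : κ → ℝ) (w : κ → Lp ℝ 1 ν) :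
    ⇑(∑ k ∈ s, c k • w k) =ᵐ[ν] fun ω => ∑ k ∈ s, c k * w k ω := by
  classical
  induction s using Finset.induction_on with
  | empty =>
    simp only [Finset.sum_empty]
    exact Lp.coeFn_zero ℝ 1 ν
  | insert a s ha ih =>
    rw [Finset.sum_insert ha]
    filter_upwards [Lp.coeFn_add (c a • w a) (∑ k ∈ s, c k • w k), ih,
      Lp.coeFn_smul (c a) (w a)] with ω h1 h2 h3
    rw [h1, Pi.add_apply, h2, h3, Finset.sum_insert ha]
    simp [smul_eq_mul]

theorem integrable_sum_norm {Ω κ : Type*} [MeasurableSpace Ω] {ν : Measure Ω} (s : Finset κ)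
    (f : κ → Lp ℝ 1 ν) : Integrable (fun ω => ∑ l ∈ s, ‖f l ω‖) ν :=
  integrable_finsetSum _ (fun _ _ => (L1.integrable_coeFn _).norm)

theorem sum_norm_eq {Ω κ : Type*} [MeasurableSpace Ω] {ν : Measure Ω} (s : Finset κ)
    (f : κ → Lp ℝ 1 ν) : ∑ l ∈ s, ‖f l‖ = ∫ ω, ∑ l ∈ s, ‖f l ω‖ ∂ν := by
  rw [integral_finsetSum _ (fun _ _ => (L1.integrable_coeFn _).norm)]
  apply Finset.sum_congr rfl
  intro l _
  exact L1.norm_eq_integral_norm _

theorem L1_ineq {Ω I J P : Type*} [MeasurableSpace Ω] {ν : Measure Ω} [Fintype I]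
    [Fintype J] [Fintype P] (n n' : ℝ) (hn : 0 < n)
    (hn' : 0 < n') (u : P → I → ℤ) (v : P → J → ℤ) (hu : ∀ l k, |(u l k : ℝ)| ≤ 1)
    (M : ℝ) (hM : ∀ k x, |∑ l, (u l k : ℝ) * (v l x : ℝ)| ≤ M) (hM0 : 0 ≤ M)
    (τ : ℝ) (hτ : 0 < τ) (h : I → Lp ℝ 1 ν) (g : J → Lp ℝ 1 ν) :
    ∑ l, ‖n⁻¹ • ∑ k, (u l k : ℝ) • h k‖ ≤
      (τ * (n⁻¹ * ∑ k, ‖h k‖) + (Fintype.card P / τ) * (M * (n'⁻¹ * ∑ x, ‖g x‖) +
        ∑ l, ‖n⁻¹ • (∑ k, (u l k : ℝ) • h k) - n'⁻¹ • ∑ x, (v l x : ℝ) • g x‖)) / 2 := by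
  rw [sum_norm_eq, sum_norm_eq, sum_norm_eq, sum_norm_eq]
  have i1 := integrable_sum_norm (ν := ν) Finset.univ h
  have i2 := integrable_sum_norm (ν := ν) Finset.univ g
  have i3 := integrable_sum_norm (ν := ν) Finset.univ (fun l : P =>
    n⁻¹ • (∑ k, (u l k : ℝ) • h k) - n'⁻¹ • ∑ x, (v l x : ℝ) • g x)
  have i4 : Integrable (fun a => M * (n'⁻¹ * ∑ l, ‖g l a‖) + ∑ l : P,
      ‖(n⁻¹ • (∑ k, (u l k : ℝ) • h k) - n'⁻¹ • ∑ x, (v l x : ℝ) • g x : Lp ℝ 1 ν) a‖) ν :=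
    ((i2.const_mul _).const_mul _).add i3
  have i5 : Integrable (fun a => (Fintype.card P / τ) * (M * (n'⁻¹ * ∑ l, ‖g l a‖) + ∑ l : P,
      ‖(n⁻¹ • (∑ k, (u l k : ℝ) • h k) - n'⁻¹ • ∑ x, (v l x : ℝ) • g x : Lp ℝ 1 ν) a‖)) ν :=
    i4.const_mul _
  have i6 : Integrable (fun a => τ * (n⁻¹ * ∑ l, ‖h l a‖)) ν := (i1.const_mul _).const_mul _
  rw [← integral_const_mul, ← integral_const_mul, ← integral_const_mul, ← integral_const_mul,
    ← integral_add ((i2.const_mul _).const_mul _) i3, ← integral_const_mul,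
    ← integral_add i6 i5, ← integral_div]
  apply integral_mono_ae (integrable_sum_norm _ _)
  · exact (i6.add i5).div_const _
  have a1 : ∀ᵐ ω ∂ν, ∀ l : P, (n⁻¹ • ∑ k, (u l k : ℝ) • h k : Lp ℝ 1 ν) ω =
      n⁻¹ * ∑ k, (u l k : ℝ) * h k ω := by
    rw [ae_all_iff]
    intro l
    filter_upwards [Lp.coeFn_smul n⁻¹ (∑ k, (u l k : ℝ) • h k),
      coeFn_lincomb (ν := ν) Finset.univ (fun k => (u l k : ℝ)) h] with ω h1 h2
    rw [h1, Pi.smul_apply, h2, smul_eq_mul]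
  have a2 : ∀ᵐ ω ∂ν, ∀ l : P, (n⁻¹ • (∑ k, (u l k : ℝ) • h k) -
      n'⁻¹ • ∑ x, (v l x : ℝ) • g x : Lp ℝ 1 ν) ω =
      n⁻¹ * (∑ k, (u l k : ℝ) * h k ω) - n'⁻¹ * ∑ x, (v l x : ℝ) * g x ω := by
    rw [ae_all_iff]
    intro l
    filter_upwards [Lp.coeFn_sub (n⁻¹ • ∑ k, (u l k : ℝ) • h k) (n'⁻¹ • ∑ x, (v l x : ℝ) • g x),
      Lp.coeFn_smul n⁻¹ (∑ k, (u l k : ℝ) • h k), Lp.coeFn_smul n'⁻¹ (∑ x, (v l x : ℝ) • g x),
      coeFn_lincomb (ν := ν) Finset.univ (fun k => (u l k : ℝ)) h,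
      coeFn_lincomb (ν := ν) Finset.univ (fun x => (v l x : ℝ)) g] with ω h1 h2 h3 h4 h5
    rw [h1, Pi.sub_apply, h2, h3, Pi.smul_apply, Pi.smul_apply, h4, h5, smul_eq_mul, smul_eq_mul]
  filter_upwards [a1, a2] with ω b1 b2
  have := real_ineq n n' hn hn' u v hu M hM hM0 τ hτ (fun k => h k ω) (fun x => g x ω)
  simp only [Real.norm_eq_abs]
  simp_rw [b1, b2]
  exact this

theorem two_sided {Ω GA GB I J P : Type*} [MeasurableSpace Ω] {ν : Measure Ω}
    [AddCommGroup GA] [AddCommGroup GB]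
    [Fintype I] [DecidableEq I] [Nonempty I] [Fintype J] [DecidableEq J] [Nonempty J]
    [Fintype P] [DecidableEq P]
    (δ : I → GA) (δ' : J → GB) (u : P → I → ℤ) (v : P → J → ℤ)
    (hu : ∀ l k, u l k = 1 ∨ u l k = -1) (hv : ∀ l k, v l k = 1 ∨ v l k = -1)
    (fA : GA → Lp ℝ 1 ν) (fB : GB → Lp ℝ 1 ν) (Lip : ℝ) (hLip : 0 ≤ Lip)
    (hA : ∀ x k, ‖fA (x + δ k) - fA x‖ ≤ Lip / Fintype.card I)
    (hB : ∀ x k, ‖fB (x + δ' k) - fB x‖ ≤ Lip / Fintype.card J)
    (hAB : ∀ z : P → ℤ, fA (∑ l, z l • ∑ k, u l k • δ k) = fB (∑ l, z l • ∑ k, v l k • δ' k))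
    (c : ℝ) (hc : ∀ (z : P → ℤ) (l : P) (t : ℕ),
      c * t ≤ ‖fA (∑ l, z l • (∑ k, u l k • δ k) + t • ∑ k, u l k • δ k) -
        fA (∑ l, z l • ∑ k, u l k • δ k)‖)
    (M : ℝ) (hM0 : 0 ≤ M) (hM : ∀ k x, |∑ l, (u l k : ℝ) * (v l x : ℝ)| ≤ M)
    (τ : ℝ) (hτ : 0 < τ) :
    Fintype.card P * c ≤ (τ * Lip + Fintype.card P / τ * (M * Lip)) / 2 := by
  set eA : P → GA := fun l => ∑ k, u l k • δ k with heA
  set eB : P → GB := fun l => ∑ k, v l k • δ' k with heB
  let φA : (P → ℤ) →+ GA :=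
    { toFun := fun z => ∑ l, z l • eA l
      map_zero' := by simp
      map_add' := by intro x y; simp [add_smul, Finset.sum_add_distrib] }
  let φB : (P → ℤ) →+ GB :=
    { toFun := fun z => ∑ l, z l • eB l
      map_zero' := by simp
      map_add' := by intro x y; simp [add_smul, Finset.sum_add_distrib] }
  let sl : P → (P → ℤ) := fun l => Pi.single l 1
  have hφA : ∀ l, φA (sl l) = eA l := by
    intro l
    change ∑ l', (Pi.single l (1 : ℤ) : P → ℤ) l' • eA l' = eA l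
    rw [Finset.sum_eq_single l]
    · simp
    · intro b _ hb; simp [hb]
    · simp
  have hφB : ∀ l, φB (sl l) = eB l := by
    intro l
    change ∑ l', (Pi.single l (1 : ℤ) : P → ℤ) l' • eB l' = eB l
    rw [Finset.sum_eq_single l]
    · simp
    · intro b _ hb; simp [hb]
    · simp
  set L0 : List (P → ℤ) := (Finset.univ : Finset P).toList.map sl with hL0
  have hLA : L0.map φA = (Finset.univ : Finset P).toList.map eA := by
    rw [hL0, List.map_map]
    apply List.map_congr_left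
    intro l _
    exact hφA l
  have hLB : L0.map φB = (Finset.univ : Finset P).toList.map eB := by
    rw [hL0, List.map_map]
    apply List.map_congr_left
    intro l _
    exact hφB l
  let F0 : (P → ℤ) → Lp ℝ 1 ν := fun z => fA (φA z)
  have hF0B : F0 = fun z => fB (φB z) := by
    funext z
    exact hAB z
  have hFrA : ∀ r z, avgL r L0 F0 z = avgL r ((Finset.univ : Finset P).toList.map eA) fA (φA z) := by
    intro r z
    rw [← hLA]
    exact avgL_map r φA L0 fA z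
  have hFrB : ∀ r z, avgL r L0 F0 z = avgL r ((Finset.univ : Finset P).toList.map eB) fB (φB z) := by
    intro r z
    rw [← hLB, hF0B]
    exact avgL_map r φB L0 fB z
  have hnI : (0 : ℝ) < Fintype.card I := by exact_mod_cast Fintype.card_pos
  have hnJ : (0 : ℝ) < Fintype.card J := by exact_mod_cast Fintype.card_pos
  have hu1 : ∀ l k, |(u l k : ℝ)| ≤ 1 := by
    intro l k
    rcases hu l k with h | h <;> simp [h]
  -- upper bound
  have hK : ∀ ε : ℝ, 0 < ε → ∃ r : ℕ, 0 < r ∧ ∀ z, ∑ l, ‖avgL r L0 F0 (z + sl l) - avgL r L0 F0 z‖ ≤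
      (τ * Lip + Fintype.card P / τ * (M * Lip + Fintype.card P * (2 * ε))) / 2 +
        Fintype.card P * ε := by
    intro ε hε
    obtain ⟨rA, hrA⟩ := side δ u hu fA Lip hLip hA ε hε
    obtain ⟨rB, hrB⟩ := side δ' v hv fB Lip hLip hB ε hε
    refine ⟨max (max rA rB) 1, by positivity, fun z => ?_⟩
    set r := max (max rA rB) 1 with hr
    obtain ⟨h, h1, h2⟩ := hrA r ((le_max_left _ _).trans (le_max_left _ _)) (φA z)
    obtain ⟨g, g1, g2⟩ := hrB r ((le_max_right _ _).trans (le_max_left _ _)) (φB z)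
    have h3 : ∀ l, ‖(Fintype.card I : ℝ)⁻¹ • ∑ k, (u l k : ℝ) • h k -
        (avgL r L0 F0 (z + sl l) - avgL r L0 F0 z)‖ ≤ ε := by
      intro l
      rw [hFrA, hFrA, map_add, hφA]
      exact h2 l
    have g3 : ∀ l, ‖(Fintype.card J : ℝ)⁻¹ • ∑ k, (v l k : ℝ) • g k -
        (avgL r L0 F0 (z + sl l) - avgL r L0 F0 z)‖ ≤ ε := by
      intro l
      rw [hFrB, hFrB, map_add, hφB]
      exact g2 l
    have hmain := L1_ineq (ν := ν) (Fintype.card I : ℝ) (Fintype.card J : ℝ) hnI hnJ u v hu1 M hM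
      hM0 τ hτ h g
    have b1 : (Fintype.card I : ℝ)⁻¹ * ∑ k, ‖h k‖ ≤ Lip := by
      rw [inv_mul_le_iff₀ hnI]
      calc ∑ k, ‖h k‖ ≤ ∑ _k : I, Lip := Finset.sum_le_sum (fun k _ => h1 k)
        _ = Fintype.card I * Lip := by simp
    have b2 : (Fintype.card J : ℝ)⁻¹ * ∑ k, ‖g k‖ ≤ Lip := by
      rw [inv_mul_le_iff₀ hnJ]
      calc ∑ k, ‖g k‖ ≤ ∑ _k : J, Lip := Finset.sum_le_sum (fun k _ => g1 k)
        _ = Fintype.card J * Lip := by simp
    have b3 : ∑ l, ‖(Fintype.card I : ℝ)⁻¹ • (∑ k, (u l k : ℝ) • h k) -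
        (Fintype.card J : ℝ)⁻¹ • ∑ x, (v l x : ℝ) • g x‖ ≤ Fintype.card P * (2 * ε) := by
      calc _ ≤ ∑ _l : P, (2 * ε) := by
            apply Finset.sum_le_sum
            intro l _
            calc _ = ‖((Fintype.card I : ℝ)⁻¹ • (∑ k, (u l k : ℝ) • h k) -
                (avgL r L0 F0 (z + sl l) - avgL r L0 F0 z)) -
                ((Fintype.card J : ℝ)⁻¹ • (∑ k, (v l k : ℝ) • g k) -
                (avgL r L0 F0 (z + sl l) - avgL r L0 F0 z))‖ := by congr 1; abel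
              _ ≤ _ := norm_sub_le _ _
              _ ≤ ε + ε := add_le_add (h3 l) (g3 l)
              _ = 2 * ε := by ring
        _ = _ := by simp
    have b4 : ∑ l, ‖avgL r L0 F0 (z + sl l) - avgL r L0 F0 z‖ ≤
        ∑ l, ‖(Fintype.card I : ℝ)⁻¹ • ∑ k, (u l k : ℝ) • h k‖ + Fintype.card P * ε := by
      calc _ ≤ ∑ l, (‖(Fintype.card I : ℝ)⁻¹ • ∑ k, (u l k : ℝ) • h k‖ + ε) := by
            apply Finset.sum_le_sum
            intro l _
            calc _ = ‖(Fintype.card I : ℝ)⁻¹ • (∑ k, (u l k : ℝ) • h k) -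
                ((Fintype.card I : ℝ)⁻¹ • (∑ k, (u l k : ℝ) • h k) -
                (avgL r L0 F0 (z + sl l) - avgL r L0 F0 z))‖ := by congr 1; abel
              _ ≤ _ := norm_sub_le _ _
              _ ≤ _ := by gcongr; exact h3 l
        _ = _ := by rw [Finset.sum_add_distrib]; simp
    have hP0 : (0 : ℝ) ≤ Fintype.card P / τ := by positivity
    have b5 : M * ((Fintype.card J : ℝ)⁻¹ * ∑ k, ‖g k‖) ≤ M * Lip :=
      mul_le_mul_of_nonneg_left b2 hM0
    have b6 : τ * ((Fintype.card I : ℝ)⁻¹ * ∑ k, ‖h k‖) ≤ τ * Lip :=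
      mul_le_mul_of_nonneg_left b1 hτ.le
    have b7 := mul_le_mul_of_nonneg_left (add_le_add b5 b3) hP0
    linarith
  -- lower bound
  have hF0lip : ∀ x l, ‖F0 (x + sl l) - F0 x‖ ≤ Lip := by
    intro x l
    have := path_lip δ fA (Lip / Fintype.card I) hA (u l) (hu l) Finset.univ (φA x)
    rw [Finset.card_univ] at this
    have e1 : (Fintype.card I : ℝ) * (Lip / Fintype.card I) = Lip := by field_simp
    rw [e1] at this
    change ‖fA (φA (x + sl l)) - fA (φA x)‖ ≤ Lip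
    rw [map_add, hφA]
    exact this
  have hlow : ∀ r : ℕ, 0 < r → ∀ T : ℕ, 0 < T → ∀ l z,
      c - 2 * (r * Fintype.card P * Lip) / T ≤
        avg T (sl l) (fun z => ‖avgL r L0 F0 (z + sl l) - avgL r L0 F0 z‖) z := by
    intro r hr T hT l z
    have hT' : (0 : ℝ) < T := by exact_mod_cast hT
    set C : ℝ := r * Fintype.card P * Lip with hC
    have hself : ∀ y, ‖avgL r L0 F0 y - F0 y‖ ≤ C := by
      intro y
      have := norm_avgL_sub_self_le r L0 F0 Lip hLip hr (by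
        intro v hv x
        rw [hL0, List.mem_map] at hv
        obtain ⟨l, _, rfl⟩ := hv
        exact hF0lip x l) y
      have hlen : (L0.length : ℝ) = Fintype.card P := by
        rw [hL0, List.length_map, Finset.length_toList, Finset.card_univ]
      rw [hlen] at this
      exact this
    unfold avg
    rw [smul_eq_mul, le_inv_mul_iff₀ hT']
    have htel : ∑ t ∈ range T, (avgL r L0 F0 (z + t • sl l + sl l) - avgL r L0 F0 (z + t • sl l)) =
        avgL r L0 F0 (z + T • sl l) - avgL r L0 F0 z := by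
      have := Finset.sum_range_sub (fun t : ℕ => avgL r L0 F0 (z + t • sl l)) T
      simp only [zero_smul, add_zero] at this
      rw [← this]
      apply Finset.sum_congr rfl
      intro t _
      congr 2
      rw [add_smul, one_smul, add_assoc]
    have h1 : ‖avgL r L0 F0 (z + T • sl l) - avgL r L0 F0 z‖ ≤
        ∑ t ∈ range T, ‖avgL r L0 F0 (z + t • sl l + sl l) - avgL r L0 F0 (z + t • sl l)‖ := by
      rw [← htel]
      exact norm_sum_le _ _
    have h2 : c * T ≤ ‖F0 (z + T • sl l) - F0 z‖ := by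
      have := hc z l T
      change c * T ≤ ‖fA (φA (z + T • sl l)) - fA (φA z)‖
      rw [map_add, map_nsmul, hφA]
      exact this
    have h3 : ‖F0 (z + T • sl l) - F0 z‖ ≤
        ‖avgL r L0 F0 (z + T • sl l) - avgL r L0 F0 z‖ + 2 * C := by
      calc _ = ‖(avgL r L0 F0 (z + T • sl l) - avgL r L0 F0 z) -
          ((avgL r L0 F0 (z + T • sl l) - F0 (z + T • sl l)) - (avgL r L0 F0 z - F0 z))‖ := by
            congr 1; abel
        _ ≤ ‖avgL r L0 F0 (z + T • sl l) - avgL r L0 F0 z‖ +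
          ‖(avgL r L0 F0 (z + T • sl l) - F0 (z + T • sl l)) - (avgL r L0 F0 z - F0 z)‖ :=
            norm_sub_le _ _
        _ ≤ ‖avgL r L0 F0 (z + T • sl l) - avgL r L0 F0 z‖ + (C + C) := by
            gcongr
            exact (norm_sub_le _ _).trans (add_le_add (hself _) (hself _))
        _ = _ := by ring
    have h4 : (T : ℝ) * (c - 2 * C / T) = c * T - 2 * C := by field_simp
    rw [h4]
    linarith
  have hmem : ∀ l, sl l ∈ L0 := fun l => by
    rw [hL0, List.mem_map]; exact ⟨l, by simp, rfl⟩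
  have hfin : ∀ ε : ℝ, 0 < ε → Fintype.card P * c ≤
      (τ * Lip + Fintype.card P / τ * (M * Lip + Fintype.card P * (2 * ε))) / 2 +
        Fintype.card P * ε := by
    intro ε hε
    obtain ⟨r, hr, hz⟩ := hK ε hε
    set K := (τ * Lip + Fintype.card P / τ * (M * Lip + Fintype.card P * (2 * ε))) / 2 +
        Fintype.card P * ε with hKdef
    set C : ℝ := r * Fintype.card P * Lip with hC
    apply le_of_forall_pos_le_add
    intro ε' hε'
    obtain ⟨T, hT⟩ := exists_nat_gt (Fintype.card P * (2 * C) / ε')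
    have hT' : (0 : ℝ) < T := lt_of_le_of_lt (by positivity) hT
    have hT'' : 0 < T := by exact_mod_cast hT'
    have h1 := avgL_le T hT'' L0 (fun z => ∑ l, ‖avgL r L0 F0 (z + sl l) - avgL r L0 F0 z‖) K hz 0
    rw [avgL_sum] at h1
    have h2 : ∑ _l : P, (c - 2 * C / T) ≤
        ∑ l, avgL T L0 (fun z => ‖avgL r L0 F0 (z + sl l) - avgL r L0 F0 z‖) 0 := by
      apply Finset.sum_le_sum
      intro l _
      exact le_avgL_of_mem T hT'' L0 _ _ (sl l) (hmem l) (fun x => hlow r hr T hT'' l x) 0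
    have h3 : ∑ _l : P, (c - 2 * C / T) = Fintype.card P * c - Fintype.card P * (2 * C) / T := by
      rw [Finset.sum_const, Finset.card_univ, nsmul_eq_mul]; ring
    have h4 : Fintype.card P * (2 * C) / T ≤ ε' := by
      rw [div_le_iff₀ hT']
      rw [div_lt_iff₀ hε'] at hT
      linarith
    linarith
  apply le_of_forall_pos_le_add
  intro ε' hε'
  set D : ℝ := Fintype.card P / τ * Fintype.card P + Fintype.card P with hD
  have hD0 : 0 ≤ D := by positivity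
  have h1 := hfin (ε' / (D + 1)) (by positivity)
  have h2 : D * (ε' / (D + 1)) ≤ ε' := by
    rw [mul_div_assoc', div_le_iff₀ (by positivity)]
    nlinarith
  calc (Fintype.card P : ℝ) * c ≤ _ := h1
    _ = (τ * Lip + Fintype.card P / τ * (M * Lip)) / 2 + D * (ε' / (D + 1)) := by rw [hD]; ring
    _ ≤ _ := by linarith

end Pool.Agent.Helper42.UnionL1
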