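import Pool.Agent.Helper42.UnionMain
import Pool.Agent.Helper42.UnionKhin

set_option autoImplicit false
set_option linter.unusedSectionVars false

namespace Pool.Agent.Helper42.UnionL1

open Finset MeasureTheory

/-- `ℓ₁(Ω)` embeds isometrically and additively in `L₁(count)`. -/
theorem exists_isometry {Ω : Type} [Countable Ω] [MeasurableSpace Ω] [MeasurableSingletonClass Ω] :
    ∃ J : lp (fun _ : Ω => ℝ) 1 → Lp ℝ 1 (Measure.count : Measure Ω), ∀ f g,
      dist (J f) (J g) = dist f g := by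
  have hint : ∀ f : lp (fun _ : Ω => ℝ) 1, Integrable (f : Ω → ℝ) (Measure.count : Measure Ω) := by
    intro f
    rw [integrable_count_iff]
    have := (lp.memℓp f).summable (by norm_num)
    simpa using this
  refine ⟨fun f => (hint f).toL1 f, fun f g => ?_⟩
  rw [dist_eq_norm, dist_eq_norm, ← Integrable.toL1_sub, L1.norm_eq_integral_norm]
  have h1 : ∫ a, ‖((hint f).sub (hint g)).toL1 (⇑f - ⇑g) a‖ ∂(Measure.count : Measure Ω) =
      ∫ a, ‖(f - g : lp (fun _ : Ω => ℝ) 1) a‖ ∂(Measure.count : Measure Ω) := by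
    apply integral_congr_ae
    filter_upwards [Integrable.coeFn_toL1 ((hint f).sub (hint g))] with a ha
    rw [ha]
    rfl
  rw [h1, integral_countable (hint (f - g)).norm, lp.norm_eq_tsum_rpow (by norm_num)]
  simp

/-- `ℓ₁` norm formula -/
theorem lp_norm_eq {Ω : Type*} (f : lp (fun _ : Ω => ℝ) 1) : ‖f‖ = ∑' i, |f i| := by
  rw [lp.norm_eq_tsum_rpow (by norm_num)]
  simp

theorem lp_summable {Ω : Type*} (f : lp (fun _ : Ω => ℝ) 1) : Summable fun i => |f i| := by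
  have := (lp.memℓp f).summable (by norm_num)
  simpa using this

abbrev Rq (q : ℕ) := Fin (4 * q) → Bool
abbrev Iq (q : ℕ) := (Rq q → Bool) × (Rq q → Bool)
abbrev Idx := Σ q : ℕ, Iq q
abbrev Ell := lp (fun _ : Idx => ℝ) 1

/-- decoupled chaos with coefficients `e` -/
noncomputable def chaos (q : ℕ) (e : Rq q → Rq q → ℝ) (k : Iq q) : ℝ :=
  ∑ a, ∑ b, e a b * ((sgn (k.1 a) : ℤ) : ℝ) * ((sgn (k.2 b) : ℤ) : ℝ)

theorem chaos_add (q : ℕ) (e e' : Rq q → Rq q → ℝ) (k : Iq q) :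
    chaos q (fun a b => e a b + e' a b) k = chaos q e k + chaos q e' k := by
  unfold chaos
  simp only [add_mul, Finset.sum_add_distrib]

theorem chaos_neg (q : ℕ) (e : Rq q → Rq q → ℝ) (k : Iq q) :
    chaos q (fun a b => -e a b) k = -chaos q e k := by
  unfold chaos
  simp only [neg_mul, Finset.sum_neg_distrib]

theorem chaos_zero (q : ℕ) (k : Iq q) : chaos q (fun _ _ => 0) k = 0 := by
  unfold chaos
  simp

theorem chaos_Q (q : ℕ) (e : Rq q → Rq q → ℝ) : ∑ k, |chaos q e k| = Q e := by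
  unfold chaos Q
  rw [Fintype.sum_prod_type, Finset.sum_comm]

/-- the glueing subgroup -/
noncomputable def S : AddSubgroup (Ell × Ell) where
  carrier := {w | ∀ q : ℕ, ∃ e : Rq q → Rq q → ℝ, ∀ k : Iq q,
    w.1 ⟨q, k⟩ = chaos q e k ∧
    w.2 ⟨q, k⟩ = -chaos q (fun a b => ((had (4 * q) a b : ℤ) : ℝ) * e a b) k}
  add_mem' := by
    intro w w' hw hw' q
    obtain ⟨e, he⟩ := hw q
    obtain ⟨e', he'⟩ := hw' q
    refine ⟨fun a b => e a b + e' a b, fun k => ⟨?_, ?_⟩⟩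
    · rw [chaos_add, ← (he k).1, ← (he' k).1]; rfl
    · simp only [mul_add]
      rw [chaos_add, neg_add, ← (he k).2, ← (he' k).2]; rfl
  zero_mem' := by
    intro q
    refine ⟨fun _ _ => 0, fun k => ⟨?_, ?_⟩⟩
    · rw [chaos_zero]; rfl
    · simp only [mul_zero]
      rw [chaos_zero, neg_zero]; rfl
  neg_mem' := by
    intro w hw q
    obtain ⟨e, he⟩ := hw q
    refine ⟨fun a b => -e a b, fun k => ⟨?_, ?_⟩⟩
    · rw [chaos_neg, ← (he k).1]; rfl
    · simp only [mul_neg]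
      rw [chaos_neg, ← (he k).2]; rfl

theorem S_comp (w : Ell × Ell) (hw : w ∈ S) : ‖w.1‖ ≤ 4 * ‖w.2‖ ∧ ‖w.2‖ ≤ 4 * ‖w.1‖ := by
  rw [lp_norm_eq, lp_norm_eq]
  have s1 := lp_summable w.1
  have s2 := lp_summable w.2
  have t1 : ∑' i, |w.1 i| = ∑' q : ℕ, ∑ k : Iq q, |w.1 ⟨q, k⟩| := by
    rw [s1.tsum_sigma' (fun q => (hasSum_fintype _).summable)]
    congr 1
    funext q
    rw [tsum_fintype]
  have t2 : ∑' i, |w.2 i| = ∑' q : ℕ, ∑ k : Iq q, |w.2 ⟨q, k⟩| := by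
    rw [s2.tsum_sigma' (fun q => (hasSum_fintype _).summable)]
    congr 1
    funext q
    rw [tsum_fintype]
  have u1 : Summable fun q : ℕ => ∑ k : Iq q, |w.1 ⟨q, k⟩| := by
    have := s1.sigma
    refine this.congr (fun q => ?_)
    rw [tsum_fintype]
  have u2 : Summable fun q : ℕ => ∑ k : Iq q, |w.2 ⟨q, k⟩| := by
    have := s2.sigma
    refine this.congr (fun q => ?_)
    rw [tsum_fintype]
  rw [t1, t2, ← tsum_mul_left, ← tsum_mul_left]
  have hcmp : ∀ q : ℕ, ∑ k : Iq q, |w.1 ⟨q, k⟩| ≤ 4 * ∑ k : Iq q, |w.2 ⟨q, k⟩| ∧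
      ∑ k : Iq q, |w.2 ⟨q, k⟩| ≤ 4 * ∑ k : Iq q, |w.1 ⟨q, k⟩| := by
    intro q
    obtain ⟨e, he⟩ := hw q
    have e1 : ∑ k : Iq q, |w.1 ⟨q, k⟩| = Q e := by
      rw [← chaos_Q]
      exact Finset.sum_congr rfl (fun k _ => by rw [(he k).1])
    have e2 : ∑ k : Iq q, |w.2 ⟨q, k⟩| =
        Q (fun a b => ((had (4 * q) a b : ℤ) : ℝ) * e a b) := by
      rw [← chaos_Q]
      exact Finset.sum_congr rfl (fun k _ => by rw [(he k).2, abs_neg])
    rw [e1, e2]
    refine ⟨Q_comp e _ (fun a b => had_sq _ a b), ?_⟩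
    have := Q_comp (fun a b => ((had (4 * q) a b : ℤ) : ℝ) * e a b)
      (fun a b => ((had (4 * q) a b : ℤ) : ℝ)) (fun a b => had_sq _ a b)
    refine this.trans (le_of_eq ?_)
    congr 2
    funext a b
    rw [← mul_assoc, ← sq, had_sq, one_mul]
  exact ⟨Summable.tsum_le_tsum (fun q => (hcmp q).1) u1 (u2.mul_left 4),
    Summable.tsum_le_tsum (fun q => (hcmp q).2) u2 (u1.mul_left 4)⟩

/-- closure of the glueing subgroup -/
noncomputable def Sc : AddSubgroup (Ell × Ell) := S.topologicalClosure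

instance : IsClosed (Sc : Set (Ell × Ell)) := S.isClosed_topologicalClosure

theorem Sc_comp (w : Ell × Ell) (hw : w ∈ Sc) : ‖w.1‖ ≤ 4 * ‖w.2‖ ∧ ‖w.2‖ ≤ 4 * ‖w.1‖ := by
  have hcl : IsClosed {w : Ell × Ell | ‖w.1‖ ≤ 4 * ‖w.2‖ ∧ ‖w.2‖ ≤ 4 * ‖w.1‖} := by
    apply IsClosed.inter
    · exact isClosed_le (f := fun w : Ell × Ell => ‖w.1‖) (g := fun w : Ell × Ell => 4 * ‖w.2‖)
        (by fun_prop) (by fun_prop)
    · exact isClosed_le (f := fun w : Ell × Ell => ‖w.2‖) (g := fun w : Ell × Ell => 4 * ‖w.1‖)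
        (by fun_prop) (by fun_prop)
  have : closure (S : Set (Ell × Ell)) ⊆ {w : Ell × Ell | ‖w.1‖ ≤ 4 * ‖w.2‖ ∧ ‖w.2‖ ≤ 4 * ‖w.1‖} :=
    closure_minimal (fun w hw => S_comp w hw) hcl
  exact this hw

/-- the glued space -/
abbrev X := (Ell × Ell) ⧸ Sc

noncomputable instance : NormedAddCommGroup X := QuotientAddGroup.instNormedAddCommGroup Sc

/-- inclusion of the first copy -/
noncomputable def inA (f : Ell) : X := QuotientAddGroup.mk (f, (0 : Ell))
/-- inclusion of the second copy -/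
noncomputable def inB (f : Ell) : X := QuotientAddGroup.mk ((0 : Ell), f)

theorem inA_sub (f g : Ell) : inA f - inA g = inA (f - g) := by
  unfold inA
  rw [← QuotientAddGroup.mk_sub, Prod.mk_sub_mk, sub_zero]

theorem inB_sub (f g : Ell) : inB f - inB g = inB (f - g) := by
  unfold inB
  rw [← QuotientAddGroup.mk_sub, Prod.mk_sub_mk, sub_zero]

theorem norm_inA_le (f : Ell) : ‖inA f‖ ≤ ‖f‖ := by
  have : ‖inA f‖ ≤ ‖((f, (0 : Ell)) : Ell × Ell)‖ := QuotientAddGroup.norm_mk_le_norm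
  refine this.trans (le_of_eq ?_)
  simp [Prod.norm_def]

theorem norm_inB_le (f : Ell) : ‖inB f‖ ≤ ‖f‖ := by
  have : ‖inB f‖ ≤ ‖(((0 : Ell), f) : Ell × Ell)‖ := QuotientAddGroup.norm_mk_le_norm
  refine this.trans (le_of_eq ?_)
  simp [Prod.norm_def]

theorem le_norm_inA (f : Ell) : ‖f‖ ≤ 5 * ‖inA f‖ := by
  apply le_of_forall_pos_le_add
  intro ε hε
  obtain ⟨m, hm, hm2⟩ := QuotientAddGroup.exists_norm_mk_lt (inA f) (show 0 < ε / 5 by positivity)
  have hmem : (f, (0 : Ell)) - m ∈ Sc := by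
    have : (QuotientAddGroup.mk m : X) = QuotientAddGroup.mk (f, (0 : Ell)) := hm
    rw [QuotientAddGroup.eq] at this
    have h2 : (f, (0 : Ell)) - m = -m + (f, (0 : Ell)) := by abel
    rw [h2]; exact this
  have hc := Sc_comp _ hmem
  have h1 : ((f, (0 : Ell)) - m).1 = f - m.1 := rfl
  have h2 : ((f, (0 : Ell)) - m).2 = -m.2 := by
    change (0 : Ell) - m.2 = -m.2
    rw [zero_sub]
  rw [h1, h2, norm_neg] at hc
  have h3 : ‖m.1‖ ≤ ‖m‖ := norm_fst_le m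
  have h4 : ‖m.2‖ ≤ ‖m‖ := norm_snd_le m
  have h5 : ‖f‖ ≤ ‖f - m.1‖ + ‖m.1‖ := by
    have := norm_add_le (f - m.1) m.1
    rwa [sub_add_cancel] at this
  linarith [hc.1]

theorem le_norm_inB (f : Ell) : ‖f‖ ≤ 5 * ‖inB f‖ := by
  apply le_of_forall_pos_le_add
  intro ε hε
  obtain ⟨m, hm, hm2⟩ := QuotientAddGroup.exists_norm_mk_lt (inB f) (show 0 < ε / 5 by positivity)
  have hmem : ((0 : Ell), f) - m ∈ Sc := by
    have : (QuotientAddGroup.mk m : X) = QuotientAddGroup.mk ((0 : Ell), f) := hm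
    rw [QuotientAddGroup.eq] at this
    have h2 : ((0 : Ell), f) - m = -m + ((0 : Ell), f) := by abel
    rw [h2]; exact this
  have hc := Sc_comp _ hmem
  have h1 : (((0 : Ell), f) - m).2 = f - m.2 := rfl
  have h2 : (((0 : Ell), f) - m).1 = -m.1 := by
    change (0 : Ell) - m.1 = -m.1
    rw [zero_sub]
  rw [h1, h2, norm_neg] at hc
  have h3 : ‖m.1‖ ≤ ‖m‖ := norm_fst_le m
  have h4 : ‖m.2‖ ≤ ‖m‖ := norm_snd_le m
  have h5 : ‖f‖ ≤ ‖f - m.2‖ + ‖m.2‖ := by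
    have := norm_add_le (f - m.2) m.2
    rwa [sub_add_cancel] at this
  linarith [hc.2]

end Pool.Agent.Helper42.UnionL1
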